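import Pool.Agent.R7.Boot.CSix

set_option autoImplicit false

namespace Pool.Agent.R7.Boot

open SimpleGraph

section
variable {V : Type}

lemma mkP5 {Γ : SimpleGraph V} {y a b c d z : V} (h1 : Γ.Adj y a) (h2 : Γ.Adj a b)
    (h3 : Γ.Adj b c) (h4 : Γ.Adj c d) (h5 : Γ.Adj d z) (yb : y ≠ b) (yc : y ≠ c) (yd : y ≠ d)
    (yz : y ≠ z) (ac : a ≠ c) (ad : a ≠ d) (az : a ≠ z) (bd : b ≠ d) (bz : b ≠ z) (cz : c ≠ z) :
    P5 Γ y z := by
  refine ⟨a, b, c, d, h1, h2, h3, h4, h5, ?_⟩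
  simp only [List.nodup_cons, List.mem_cons, not_or, List.not_mem_nil, or_false,
    not_false_eq_true, List.nodup_nil, and_true]
  exact ⟨⟨h1.ne, yb, yc, yd, yz⟩, ⟨h2.ne, ac, ad, az⟩, ⟨h3.ne, bd, bz⟩, ⟨h4.ne, cz⟩, h5.ne⟩

variable [DecidableEq V] (Γ : SimpleGraph V)

/-- a complete bipartite graph with parts of sizes `3` and `4` at time `t1` -/
structure Blob (t1 : ℕ) (A B : Finset V) : Prop where
  cA : A.card = 3
  cB : B.card = 4
  dis : Disjoint A B
  adj : ∀ a ∈ A, ∀ b ∈ B, (seq Γ t1).Adj a b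

/-- `v` is adjacent at time `t` to all vertices of `B` different from `v` -/
def al (B : Finset V) (t : ℕ) (v : V) : Prop := ∀ b ∈ B, b ≠ v → (seq Γ t).Adj v b

lemma al.mono {Γ : SimpleGraph V} {B : Finset V} {s t : ℕ} {v : V} (h : al Γ B s v)
    (hst : s ≤ t) : al Γ B t v := fun b hb hne => seq_mono Γ hst (h b hb hne)

lemma pick {S T : Finset V} (h : T.card < S.card) : ∃ x ∈ S, x ∉ T :=
  Finset.exists_mem_notMem_of_card_lt_card h

lemma card_two_le (a b : V) : ({a, b} : Finset V).card ≤ 2 := Finset.card_le_two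

lemma card_three_le (a b c : V) : ({a, b, c} : Finset V).card ≤ 3 := Finset.card_le_three

variable {Γ}

lemma claimA {t1 t : ℕ} {A B : Finset V} (hb : Blob Γ t1 A B) (ht : t1 ≤ t) {v w : V}
    (hv : al Γ B t v) (hvw : (seq Γ t).Adj v w) : al Γ A (t + 2) w := by
  intro a ha haw
  have hAB : ∀ a ∈ A, ∀ b ∈ B, (seq Γ t).Adj a b := fun a ha b hb' =>
    seq_mono Γ ht (hb.adj a ha b hb')
  have hdis : ∀ a ∈ A, ∀ b ∈ B, a ≠ b := fun a ha b hb' => (hAB a ha b hb').ne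
  by_cases hav : a = v
  · subst hav
    exact seq_mono Γ (by omega) hvw.symm
  by_cases hex : ∃ a' ∈ A, a' ∉ ({a, v, w} : Finset V)
  · obtain ⟨a', ha', hn⟩ := hex
    simp only [Finset.mem_insert, Finset.mem_singleton, not_or] at hn
    obtain ⟨b, hbB, hbn⟩ := pick (S := B) (T := {v, w}) (by
      rw [hb.cB]; exact lt_of_le_of_lt (card_two_le _ _) (by norm_num))
    obtain ⟨b', hbB', hbn'⟩ := pick (S := B) (T := {v, w, b}) (by
      rw [hb.cB]; exact lt_of_le_of_lt (card_three_le _ _ _) (by norm_num))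
    simp only [Finset.mem_insert, Finset.mem_singleton, not_or] at hbn hbn'
    have hP : P5 (seq Γ t) w a := mkP5 hvw.symm (hv b hbB hbn.1) (hAB a' ha' b hbB).symm
      (hAB a' ha' b' hbB') (hAB a ha b' hbB').symm (Ne.symm hbn.2) (Ne.symm hn.2.2)
      (Ne.symm hbn'.2.1) (Ne.symm haw) (Ne.symm hn.2.1) (Ne.symm hbn'.1) (Ne.symm hav)
      (Ne.symm hbn'.2.2) (hdis a ha b hbB).symm hn.1
    exact seq_succ_le Γ _ (seq_P5 Γ hP)
  · push Not at hex
    have hsub : A ⊆ {a, v, w} := fun x hx => hex x hx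
    have hcard3 : ({a, v, w} : Finset V).card ≤ 3 := card_three_le _ _ _
    have hEq : A = {a, v, w} := Finset.eq_of_subset_of_card_le hsub (by rw [hb.cA]; exact hcard3)
    have hvA : v ∈ A := by rw [hEq]; simp
    have hwA : w ∈ A := by rw [hEq]; simp
    have hclique : ∀ b1 ∈ B, ∀ b2 ∈ B, b1 ≠ b2 → (seq Γ (t + 1)).Adj b1 b2 := by
      intro b1 hb1 b2 hb2 hne
      obtain ⟨b3, hb3, hn3⟩ := pick (S := B) (T := {b1, b2}) (by
        rw [hb.cB]; exact lt_of_le_of_lt (card_two_le _ _) (by norm_num))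
      simp only [Finset.mem_insert, Finset.mem_singleton, not_or] at hn3
      exact seq_P5 Γ (mkP5 (hAB v hvA b1 hb1).symm hvw (hAB w hwA b3 hb3) (hAB a ha b3 hb3).symm
        (hAB a ha b2 hb2) (hdis w hwA b1 hb1).symm (Ne.symm hn3.1) (hdis a ha b1 hb1).symm hne
        (hdis v hvA b3 hb3) (Ne.symm hav) (hdis v hvA b2 hb2) (Ne.symm haw)
        (hdis w hwA b2 hb2) hn3.2)
    have hB4 := hb.cB
    obtain ⟨b1, hb1, -⟩ := pick (S := B) (T := ∅) (by rw [hb.cB]; simp)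
    obtain ⟨b2, hb2, hn2⟩ := pick (S := B) (T := {b1}) (by rw [hb.cB]; simp)
    obtain ⟨b3, hb3, hn3⟩ := pick (S := B) (T := {b1, b2}) (by
      rw [hb.cB]; exact lt_of_le_of_lt (card_two_le _ _) (by norm_num))
    obtain ⟨b4, hb4, hn4⟩ := pick (S := B) (T := {b1, b2, b3}) (by
      rw [hb.cB]; exact lt_of_le_of_lt (card_three_le _ _ _) (by norm_num))
    simp only [Finset.mem_insert, Finset.mem_singleton, not_or] at hn2 hn3 hn4
    refine seq_P5 Γ (mkP5 (seq_succ_le Γ _ (hAB w hwA b1 hb1)) (hclique b1 hb1 b2 hb2 (Ne.symm hn2))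
      (hclique b2 hb2 b3 hb3 (Ne.symm hn3.2)) (hclique b3 hb3 b4 hb4 (Ne.symm hn4.2.2))
      (seq_succ_le Γ _ (hAB a ha b4 hb4).symm) (hdis w hwA b2 hb2) (hdis w hwA b3 hb3)
      (hdis w hwA b4 hb4) (Ne.symm haw) (Ne.symm hn3.1) (Ne.symm hn4.1) (hdis a ha b1 hb1).symm
      (Ne.symm hn4.2.1) (hdis a ha b2 hb2).symm (hdis a ha b3 hb3).symm)

lemma claimB {t1 t : ℕ} {A B : Finset V} (hb : Blob Γ t1 A B) (ht : t1 ≤ t) {v w : V}
    (hv : al Γ A t v) (hvw : (seq Γ t).Adj v w) : al Γ B (t + 2) w := by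
  intro b hbB hbw
  have hAB : ∀ a ∈ A, ∀ b ∈ B, (seq Γ t).Adj a b := fun a ha b hb' =>
    seq_mono Γ ht (hb.adj a ha b hb')
  have hdis : ∀ a ∈ A, ∀ b ∈ B, a ≠ b := fun a ha b hb' => (hAB a ha b hb').ne
  by_cases hbv : b = v
  · subst hbv
    exact seq_mono Γ (by omega) hvw.symm
  by_cases hwA : w ∈ A
  · exact seq_mono Γ (by omega) (hAB w hwA b hbB)
  · obtain ⟨a, ha, hn⟩ := pick (S := A) (T := {v}) (by rw [hb.cA]; simp)
    obtain ⟨a', ha', hn'⟩ := pick (S := A) (T := {v, a}) (by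
      rw [hb.cA]; exact lt_of_le_of_lt (card_two_le _ _) (by norm_num))
    obtain ⟨b', hbB', hbn'⟩ := pick (S := B) (T := {b, v, w}) (by
      rw [hb.cB]; exact lt_of_le_of_lt (card_three_le _ _ _) (by norm_num))
    simp only [Finset.mem_insert, Finset.mem_singleton, not_or] at hn hn' hbn'
    have hwa : w ≠ a := fun h => hwA (h ▸ ha)
    have hwa' : w ≠ a' := fun h => hwA (h ▸ ha')
    exact seq_succ_le Γ _ (seq_P5 Γ (mkP5 hvw.symm (hv a ha hn) (hAB a ha b' hbB')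
      (hAB a' ha' b' hbB').symm (hAB a' ha' b hbB) hwa (Ne.symm hbn'.2.2) hwa' (Ne.symm hbw)
      (Ne.symm hbn'.2.1) (Ne.symm hn'.1) (Ne.symm hbv) (Ne.symm hn'.2) (hdis a ha b hbB)
      hbn'.1))

lemma connect {t1 t : ℕ} {A B : Finset V} (hb : Blob Γ t1 A B) (ht : t1 ≤ t) {y z : V}
    (hy : al Γ B t y) (hz : al Γ A t z) (hyz : y ≠ z) : (seq Γ (t + 1)).Adj y z := by
  have hAB : ∀ a ∈ A, ∀ b ∈ B, (seq Γ t).Adj a b := fun a ha b hb' =>
    seq_mono Γ ht (hb.adj a ha b hb')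
  have hdis : ∀ a ∈ A, ∀ b ∈ B, a ≠ b := fun a ha b hb' => (hAB a ha b hb').ne
  by_cases hyA : y ∈ A
  · exact seq_succ_le Γ _ (hz y hyA hyz).symm
  · obtain ⟨a, ha, hn⟩ := pick (S := A) (T := {z}) (by rw [hb.cA]; simp)
    obtain ⟨a', ha', hn'⟩ := pick (S := A) (T := {z, a}) (by
      rw [hb.cA]; exact lt_of_le_of_lt (card_two_le _ _) (by norm_num))
    obtain ⟨b, hbB, hbn⟩ := pick (S := B) (T := {y, z}) (by
      rw [hb.cB]; exact lt_of_le_of_lt (card_two_le _ _) (by norm_num))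
    obtain ⟨b', hbB', hbn'⟩ := pick (S := B) (T := {y, z, b}) (by
      rw [hb.cB]; exact lt_of_le_of_lt (card_three_le _ _ _) (by norm_num))
    simp only [Finset.mem_insert, Finset.mem_singleton, not_or] at hn hn' hbn hbn'
    have hya : y ≠ a := fun h => hyA (h ▸ ha)
    have hya' : y ≠ a' := fun h => hyA (h ▸ ha')
    exact seq_P5 Γ (mkP5 (hy b hbB hbn.1) (hAB a ha b hbB).symm (hAB a ha b' hbB')
      (hAB a' ha' b' hbB').symm (hz a' ha' hn'.1).symm hya (Ne.symm hbn'.1) hya' hyz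
      (Ne.symm hbn'.2.2) (hdis a' ha' b hbB).symm hbn.2 (Ne.symm hn'.2) hn hbn'.2.1)

/-- the state of a vertex -/
def st (Γ : SimpleGraph V) (A B : Finset V) (e : Bool) (t : ℕ) (v : V) : Prop :=
  if e then al Γ B t v else al Γ A t v

lemma st.mono {A B : Finset V} {e : Bool} {s t : ℕ} {v : V} (h : st Γ A B e s v)
    (hst : s ≤ t) : st Γ A B e t v := by
  cases e
  · exact al.mono h hst
  · exact al.mono h hst

lemma st_step {t1 t : ℕ} {A B : Finset V} (hb : Blob Γ t1 A B) (ht : t1 ≤ t) {v w : V} {e : Bool}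
    (hv : st Γ A B e t v) (hvw : (seq Γ t).Adj v w) : st Γ A B (!e) (t + 2) w := by
  cases e
  · exact claimB hb ht hv hvw
  · exact claimA hb ht hv hvw

lemma walk_st {t1 s : ℕ} {A B : Finset V} (hb : Blob Γ t1 A B) {v w : V}
    (p : (seq Γ s).Walk v w) : ∀ (e : Bool) (t : ℕ), s ≤ t → t1 ≤ t → st Γ A B e t v →
      st Γ A B (xor e (decide (p.length % 2 = 1))) (t + 2 * p.length) w := by
  induction p with
  | nil =>
    intro e t _ _ h
    simpa using h
  | @cons v u w h p ih =>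
    intro e t h1 h2 h3
    have h4 := st_step hb h2 h3 (seq_mono Γ h1 h)
    have h5 := ih (!e) (t + 2) (by omega) (by omega) h4
    have e1 : (xor (!e) (decide (p.length % 2 = 1))) =
        (xor e (decide ((Walk.cons h p).length % 2 = 1))) := by
      rw [Walk.length_cons]
      rcases Nat.mod_two_eq_zero_or_one p.length with hp | hp
      · have : (p.length + 1) % 2 = 1 := by omega
        simp [hp, this]
      · have : (p.length + 1) % 2 = 0 := by omega
        simp [hp, this]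
    rw [e1] at h5
    have e2 : t + 2 + 2 * p.length = t + 2 * (Walk.cons h p).length := by
      rw [Walk.length_cons]; ring
    rwa [e2] at h5

end

end Pool.Agent.R7.Boot
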