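import Mathlib

set_option autoImplicit false

namespace Pool.Agent.R7.Boot

open SimpleGraph

/-- `y` and `z` are the ends of a path with five edges -/
def P5 {V : Type} (Γ : SimpleGraph V) (y z : V) : Prop :=
  ∃ a b c d, Γ.Adj y a ∧ Γ.Adj a b ∧ Γ.Adj b c ∧ Γ.Adj c d ∧ Γ.Adj d z ∧ [y, a, b, c, d, z].Nodup

lemma P5.symm {V : Type} {Γ : SimpleGraph V} {y z : V} (h : P5 Γ y z) : P5 Γ z y := by
  obtain ⟨a, b, c, d, h1, h2, h3, h4, h5, h6⟩ := h
  exact ⟨d, c, b, a, h5.symm, h4.symm, h3.symm, h2.symm, h1.symm, by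
    simpa using List.nodup_reverse.2 h6⟩

lemma P5.mono {V : Type} {Γ Γ' : SimpleGraph V} {y z : V} (h : P5 Γ y z) (hle : Γ ≤ Γ') :
    P5 Γ' y z := by
  obtain ⟨a, b, c, d, h1, h2, h3, h4, h5, h6⟩ := h
  exact ⟨a, b, c, d, hle h1, hle h2, hle h3, hle h4, hle h5, h6⟩

lemma P5.ne {V : Type} {Γ : SimpleGraph V} {y z : V} (h : P5 Γ y z) : y ≠ z := by
  obtain ⟨a, b, c, d, h1, h2, h3, h4, h5, h6⟩ := h
  simp only [List.nodup_cons, List.mem_cons, not_or] at h6
  tauto

/-- one round of the six-cycle process -/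
def c6 {V : Type} (Γ : SimpleGraph V) : SimpleGraph V where
  Adj y z := Γ.Adj y z ∨ P5 Γ y z
  symm := ⟨fun _ _ h => h.elim (fun h => Or.inl h.symm) (fun h => Or.inr h.symm)⟩
  loopless := ⟨fun _ h => h.elim (fun h => h.ne rfl) (fun h => h.ne rfl)⟩

/-- the six-cycle process -/
def seq {V : Type} (Γ : SimpleGraph V) : ℕ → SimpleGraph V
  | 0 => Γ
  | t + 1 => c6 (seq Γ t)

section
variable {V : Type} (Γ : SimpleGraph V)

lemma seq_succ_le (t : ℕ) : seq Γ t ≤ seq Γ (t + 1) := fun _ _ h => Or.inl h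

lemma seq_mono {s t : ℕ} (h : s ≤ t) : seq Γ s ≤ seq Γ t :=
  monotone_nat_of_le_succ (seq_succ_le Γ) h

lemma seq_P5 {t : ℕ} {y z : V} (h : P5 (seq Γ t) y z) : (seq Γ (t + 1)).Adj y z := Or.inr h

lemma P5.reach {Γ : SimpleGraph V} {y z : V} (h : P5 Γ y z) : Γ.Reachable y z := by
  obtain ⟨a, b, c, d, h1, h2, h3, h4, h5, h6⟩ := h
  exact h1.reachable.trans (h2.reachable.trans (h3.reachable.trans
    (h4.reachable.trans h5.reachable)))

lemma c6_reach {Γ : SimpleGraph V} {y z : V} (h : (c6 Γ).Reachable y z) : Γ.Reachable y z := by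
  obtain ⟨p⟩ := h
  induction p with
  | nil => exact Reachable.refl _
  | cons hadj p ih =>
    rcases hadj with h | h
    · exact h.reachable.trans ih
    · exact h.reach.trans ih

lemma seq_reach {t : ℕ} {y z : V} (h : (seq Γ t).Reachable y z) : Γ.Reachable y z := by
  induction t with
  | zero => exact h
  | succ t ih => exact ih (c6_reach h)

lemma reach_seq (t : ℕ) {y z : V} (h : Γ.Reachable y z) : (seq Γ t).Reachable y z :=
  h.mono (seq_mono Γ (Nat.zero_le t))

/-! ### distances shrink -/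

lemma shrink_aux {Γ : SimpleGraph V} : ∀ (k : ℕ) {y z : V} (p : Γ.Walk y z), p.IsPath →
    p.length = k → ∃ q : (c6 Γ).Walk y z, q.length ≤ k / 5 + k % 5 := by
  intro k
  induction k using Nat.strong_induction_on with
  | _ k ih =>
    intro y z p hp hk
    by_cases hk5 : k < 5
    · exact ⟨p.mapLe (fun _ _ h => Or.inl h), by rw [Walk.length_map]; omega⟩
    · match p, hp, hk with
      | .nil, _, hk => exact absurd hk (by simp; omega)
      | .cons h1 .nil, _, hk => exact absurd hk (by simp; omega)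
      | .cons h1 (.cons h2 .nil), _, hk => exact absurd hk (by simp; omega)
      | .cons h1 (.cons h2 (.cons h3 .nil)), _, hk => exact absurd hk (by simp; omega)
      | .cons h1 (.cons h2 (.cons h3 (.cons h4 .nil))), _, hk => exact absurd hk (by simp; omega)
      | .cons (v := a) h1 (.cons (v := b) h2 (.cons (v := c) h3 (.cons (v := d) h4
          (.cons (v := e) h5 q)))), hp, hk =>
        have hq : q.IsPath := by
          simp only [Walk.cons_isPath_iff] at hp
          exact hp.1.1.1.1.1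
        have hlen : q.length = k - 5 := by simp at hk; omega
        obtain ⟨q', hq'⟩ := ih (k - 5) (by omega) q hq hlen
        have hP : P5 Γ y e := by
          refine ⟨a, b, c, d, h1, h2, h3, h4, h5, ?_⟩
          have hnd := hp.support_nodup
          simp only [Walk.support_cons] at hnd
          have he : e ∈ q.support := q.start_mem_support
          simp only [List.nodup_cons, List.mem_cons, not_or, List.not_mem_nil, or_false,
            not_false_eq_true, List.nodup_nil, and_true] at hnd ⊢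
          have key : ∀ w : V, w ∉ q.support → w ≠ e := fun w hw h => hw (h ▸ he)
          obtain ⟨⟨x1, x2, x3, x4, x5⟩, ⟨x6, x7, x8, x9⟩, ⟨x10, x11, x12⟩, ⟨x13, x14⟩, x15, -⟩ := hnd
          exact ⟨⟨x1, x2, x3, x4, key _ x5⟩, ⟨x6, x7, x8, key _ x9⟩, ⟨x10, x11, key _ x12⟩,
            ⟨x13, key _ x14⟩, key _ x15⟩
        have hadj : (c6 Γ).Adj y e := Or.inr hP
        exact ⟨.cons hadj q', by rw [Walk.length_cons]; omega⟩

/-- there is a walk of length at most `k` -/
def near (Γ : SimpleGraph V) (k : ℕ) (y z : V) : Prop := ∃ p : Γ.Walk y z, p.length ≤ k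

lemma near_c6 {Γ : SimpleGraph V} {k : ℕ} {y z : V} (h : near Γ k y z) :
    near (c6 Γ) (k / 5 + 4) y z := by
  classical
  obtain ⟨p, hp⟩ := h
  obtain ⟨q, hq⟩ := shrink_aux _ p.bypass p.bypass_isPath rfl
  have := p.length_bypass_le_length
  exact ⟨q, by omega⟩

lemma near_c6_five {Γ : SimpleGraph V} {y z : V} (h : near Γ 5 y z) : near (c6 Γ) 4 y z := by
  classical
  obtain ⟨p, hp⟩ := h
  obtain ⟨q, hq⟩ := shrink_aux _ p.bypass p.bypass_isPath rfl
  have := p.length_bypass_le_length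
  exact ⟨q, by omega⟩

lemma near_seq [Fintype V] (t : ℕ) {y z : V} (h : Γ.Reachable y z) :
    near (seq Γ t) (Fintype.card V / 5 ^ t + 5) y z := by
  classical
  induction t with
  | zero =>
    obtain ⟨p⟩ := h
    have h1 := p.bypass_isPath.length_lt
    have h2 : near Γ (Fintype.card V / 5 ^ 0 + 5) y z :=
      ⟨p.bypass, by simp only [pow_zero, Nat.div_one]; omega⟩
    exact h2
  | succ t ih =>
    obtain ⟨p, hp⟩ := near_c6 ih
    refine ⟨p, le_trans hp ?_⟩
    rw [pow_succ, ← Nat.div_div_eq_div_mul]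
    omega

lemma near_four [Fintype V] {y z : V} (h : Γ.Reachable y z) :
    near (seq Γ (Nat.log 5 (Fintype.card V) + 2)) 4 y z := by
  have h1 := near_seq Γ (Nat.log 5 (Fintype.card V) + 1) h
  have h2 : Fintype.card V / 5 ^ (Nat.log 5 (Fintype.card V) + 1) = 0 :=
    Nat.div_eq_of_lt (Nat.lt_pow_succ_log_self (by norm_num) _)
  rw [h2, zero_add] at h1
  exact near_c6_five h1

end

end Pool.Agent.R7.Boot
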