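import Mathlib

set_option autoImplicit false

namespace Pool.Agent.R7.Boot

open SimpleGraph

/-- One round of the `H`-process: every pair `e` with `n_H(G + e) > n_H(G)` is added to `G`
(`G.copyCount H` is the number of subgraphs of `G` isomorphic to `H`). -/
noncomputable def step {V W : Type} [Fintype V] (H : SimpleGraph W) (G : SimpleGraph V) :
    SimpleGraph V :=
  G ⊔ SimpleGraph.fromRel (fun x y => G.copyCount H < (G ⊔ edge x y).copyCount H)

/-- The `H`-process `(G_i)` on `G`. -/
noncomputable def proc {V W : Type} [Fintype V] (H : SimpleGraph W) (G : SimpleGraph V) :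
    ℕ → SimpleGraph V
  | 0 => G
  | i + 1 => step H (proc H G i)

/-- The running time `τ_H(G) = min {t : G_t = G_{t+1}}`. -/
noncomputable def tau {V W : Type} [Fintype V] (H : SimpleGraph W) (G : SimpleGraph V) : ℕ :=
  sInf {t : ℕ | proc H G t = proc H G (t + 1)}

/-- The maximum running time `M_H(n)` over all `n`-vertex graphs. -/
noncomputable def M {W : Type} (H : SimpleGraph W) (n : ℕ) : ℕ :=
  sSup {t : ℕ | ∃ G : SimpleGraph (Fin n), tau H G = t}

/-- The graph `H^{u+}`: one new vertex `none`, joined only to `u`. -/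
def addPendant {W : Type} (H : SimpleGraph W) (u : W) : SimpleGraph (Option W) where
  Adj a b :=
    match a, b with
    | some a, some b => H.Adj a b
    | some a, none => a = u
    | none, some b => b = u
    | none, none => False
  symm := ⟨by
    rintro (_ | a) (_ | b) h
    · exact h
    · exact h
    · exact h
    · exact SimpleGraph.Adj.symm (G := H) h⟩
  loopless := ⟨by
    rintro (_ | a) h
    · exact h
    · exact H.loopless.irrefl _ h⟩

/-! ### Completed copies -/

/-- transport a subgraph to a larger graph -/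
def liftSub {V : Type} {G G' : SimpleGraph V} (h : G ≤ G') (S : G.Subgraph) : G'.Subgraph where
  verts := S.verts
  Adj := S.Adj
  adj_sub := fun h1 => h (S.adj_sub h1)
  edge_vert := S.edge_vert
  symm := S.symm

/-- the subgraph spanned by an injective homomorphism -/
def imgSub {V W : Type} {H : SimpleGraph W} {G : SimpleGraph V} (f : W → V)
    (hf : ∀ a b, H.Adj a b → G.Adj (f a) (f b)) : G.Subgraph where
  verts := Set.range f
  Adj u v := ∃ a b, H.Adj a b ∧ f a = u ∧ f b = v
  adj_sub := by
    rintro u v ⟨a, b, h, rfl, rfl⟩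
    exact hf a b h
  edge_vert := by
    rintro u v ⟨a, b, h, rfl, rfl⟩
    exact ⟨a, rfl⟩
  symm := ⟨by
    rintro u v ⟨a, b, h, rfl, rfl⟩
    exact ⟨b, a, h.symm, rfl, rfl⟩⟩

lemma imgSub_iso {V W : Type} {H : SimpleGraph W} {G : SimpleGraph V} (f : W → V)
    (hinj : Function.Injective f)
    (hf : ∀ a b, H.Adj a b → G.Adj (f a) (f b)) : Nonempty (H ≃g (imgSub f hf).coe) := by
  refine ⟨⟨Equiv.ofInjective f hinj, ?_⟩⟩
  intro a b
  constructor
  · rintro ⟨a', b', h, h1, h2⟩
    rw [← hinj h1, ← hinj h2]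
    exact h
  · intro h
    exact ⟨a, b, h, rfl, rfl⟩

lemma copyCount_lt_iff {V W : Type} [Fintype V] (H : SimpleGraph W) (G : SimpleGraph V) (x y : V)
    (hxy : ¬ G.Adj x y) :
    G.copyCount H < (G ⊔ edge x y).copyCount H ↔
      ∃ f : W → V, Function.Injective f ∧ (∀ a b, H.Adj a b → (G ⊔ edge x y).Adj (f a) (f b)) ∧
        ∃ a b, H.Adj a b ∧ f a = x ∧ f b = y := by
  classical
  set G' := G ⊔ edge x y with hG'
  have hle : G ≤ G' := le_sup_left
  have hadj : ∀ a b, G'.Adj a b → ¬ G.Adj a b → (a = x ∧ b = y) ∨ (a = y ∧ b = x) := by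
    intro a b h1 h2
    rw [hG', SimpleGraph.sup_adj, edge_adj] at h1
    tauto
  have hinjl : Function.Injective (liftSub hle) := by
    intro S T h
    have h1 : (liftSub hle S).verts = (liftSub hle T).verts := by rw [h]
    have h2 : (liftSub hle S).Adj = (liftSub hle T).Adj := by rw [h]
    exact Subgraph.ext h1 h2
  have hsub : (Finset.univ.filter (fun S : G.Subgraph => Nonempty (H ≃g S.coe))).image
      (liftSub hle) ⊆ Finset.univ.filter (fun S : G'.Subgraph => Nonempty (H ≃g S.coe)) := by
    intro S hS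
    rw [Finset.mem_image] at hS
    obtain ⟨T, hT, rfl⟩ := hS
    rw [Finset.mem_filter] at hT ⊢
    exact ⟨Finset.mem_univ _, hT.2⟩
  have hcard := Finset.card_image_of_injective
    (Finset.univ.filter (fun S : G.Subgraph => Nonempty (H ≃g S.coe))) hinjl
  have e1 : G.copyCount H =
      ((Finset.univ.filter (fun S : G.Subgraph => Nonempty (H ≃g S.coe))).image
      (liftSub hle)).card := by
    rw [hcard]
    unfold copyCount
    apply congrArg Finset.card
    ext S
    simp only [Finset.mem_filter]
  have e2 : G'.copyCount H =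
      (Finset.univ.filter (fun S : G'.Subgraph => Nonempty (H ≃g S.coe))).card := by
    unfold copyCount
    apply congrArg Finset.card
    ext S
    simp only [Finset.mem_filter, Finset.mem_univ, true_and]
  rw [e1, e2]
  constructor
  · intro hlt
    obtain ⟨S, hS1, hS2⟩ := Finset.exists_mem_notMem_of_card_lt_card hlt
    rw [Finset.mem_filter] at hS1
    obtain ⟨-, ⟨φ⟩⟩ := hS1
    have hex : ∃ u v, S.Adj u v ∧ ¬ G.Adj u v := by
      by_contra hno
      push Not at hno
      apply hS2
      rw [Finset.mem_image]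
      refine ⟨{ verts := S.verts, Adj := S.Adj, adj_sub := fun h1 => hno _ _ h1,
                edge_vert := S.edge_vert, symm := S.symm }, ?_, rfl⟩
      rw [Finset.mem_filter]
      exact ⟨Finset.mem_univ _, ⟨φ⟩⟩
    have hxyS : S.Adj x y := by
      obtain ⟨u, v, h1, h2⟩ := hex
      rcases hadj u v (S.adj_sub h1) h2 with ⟨rfl, rfl⟩ | ⟨rfl, rfl⟩
      · exact h1
      · exact h1.symm
    refine ⟨fun a => (φ a : V), ?_, ?_, ?_⟩
    · intro a b h
      exact φ.injective (Subtype.ext h)
    · intro a b h
      exact S.adj_sub (φ.map_adj_iff.2 h)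
    · refine ⟨φ.symm ⟨x, S.edge_vert hxyS⟩, φ.symm ⟨y, S.edge_vert hxyS.symm⟩, ?_, ?_, ?_⟩
      · rw [φ.symm.map_adj_iff]
        exact hxyS
      · simp
      · simp
  · rintro ⟨f, hinj, hf, a, b, hab, rfl, rfl⟩
    apply Finset.card_lt_card
    refine ⟨hsub, fun hcon => ?_⟩
    have hmem : imgSub f hf ∈
        Finset.univ.filter (fun S : G'.Subgraph => Nonempty (H ≃g S.coe)) := by
      rw [Finset.mem_filter]
      exact ⟨Finset.mem_univ _, imgSub_iso f hinj hf⟩
    have := hcon hmem
    rw [Finset.mem_image] at this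
    obtain ⟨T, -, hT⟩ := this
    apply hxy
    apply T.adj_sub
    have h2 : (liftSub hle T).Adj (f a) (f b) := by
      rw [hT]
      exact ⟨a, b, hab, rfl, rfl⟩
    exact h2

/-- A pair is added in one round iff it completes a copy of `H`. -/
lemma step_adj {V W : Type} [Fintype V] (H : SimpleGraph W) (G : SimpleGraph V) (x y : V) :
    (step H G).Adj x y ↔ G.Adj x y ∨ (x ≠ y ∧
      ∃ f : W → V, Function.Injective f ∧ (∀ a b, H.Adj a b → (G ⊔ edge x y).Adj (f a) (f b)) ∧
        ∃ a b, H.Adj a b ∧ f a = x ∧ f b = y) := by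
  unfold step
  rw [SimpleGraph.sup_adj, SimpleGraph.fromRel_adj]
  by_cases hxy : G.Adj x y
  · simp [hxy]
  · have h1 := copyCount_lt_iff H G x y hxy
    rw [edge_comm y x, h1]
    tauto

lemma le_step {V W : Type} [Fintype V] (H : SimpleGraph W) (G : SimpleGraph V) : G ≤ step H G :=
  le_sup_left

lemma step_mono {V W : Type} [Fintype V] (H : SimpleGraph W) {G G' : SimpleGraph V}
    (h : G ≤ G') : step H G ≤ step H G' := by
  intro x y hxy
  rw [step_adj] at hxy ⊢
  rcases hxy with hxy | ⟨hne, f, h1, h2, h3⟩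
  · exact Or.inl (h hxy)
  · exact Or.inr ⟨hne, f, h1, fun a b hab => sup_le_sup_right h _ (h2 a b hab), h3⟩

lemma proc_mono_succ {V W : Type} [Fintype V] (H : SimpleGraph W) (G : SimpleGraph V) (i : ℕ) :
    proc H G i ≤ proc H G (i + 1) := le_step _ _

lemma proc_mono {V W : Type} [Fintype V] (H : SimpleGraph W) (G : SimpleGraph V) {i j : ℕ}
    (h : i ≤ j) : proc H G i ≤ proc H G j :=
  monotone_nat_of_le_succ (proc_mono_succ H G) h

lemma proc_stable {V W : Type} [Fintype V] (H : SimpleGraph W) (G : SimpleGraph V) {i : ℕ}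
    (h : proc H G i = proc H G (i + 1)) (j : ℕ) (hj : i ≤ j) : proc H G j = proc H G i := by
  induction j, hj using Nat.le_induction with
  | base => rfl
  | succ j hj ih =>
    show step H (proc H G j) = _
    rw [ih]
    exact h.symm

lemma tau_le {V W : Type} [Fintype V] (H : SimpleGraph W) (G : SimpleGraph V) {i : ℕ}
    (h : proc H G i = proc H G (i + 1)) : tau H G ≤ i := Nat.sInf_le h

/-- The process always stabilises. -/
lemma exists_stable {V W : Type} [Fintype V] (H : SimpleGraph W) (G : SimpleGraph V) :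
    ∃ i, proc H G i = proc H G (i + 1) := by
  by_contra hno
  push Not at hno
  have hs : StrictMono (proc H G) :=
    strictMono_nat_of_lt_succ (fun i => lt_of_le_of_ne (proc_mono_succ H G i) (hno i))
  have : Function.Injective (proc H G) := hs.injective
  exact not_injective_infinite_finite _ this

lemma tau_spec {V W : Type} [Fintype V] (H : SimpleGraph W) (G : SimpleGraph V) :
    proc H G (tau H G) = proc H G (tau H G + 1) :=
  Nat.sInf_mem (exists_stable H G)

lemma le_tau {V W : Type} [Fintype V] (H : SimpleGraph W) (G : SimpleGraph V) (T : ℕ)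
    (h : ∀ i < T, proc H G i ≠ proc H G (i + 1)) : T ≤ tau H G := by
  by_contra hlt
  push Not at hlt
  exact h _ hlt (tau_spec H G)

lemma bddAbove_tau {W : Type} (H : SimpleGraph W) (n : ℕ) :
    BddAbove {t : ℕ | ∃ G : SimpleGraph (Fin n), tau H G = t} := by
  have : {t : ℕ | ∃ G : SimpleGraph (Fin n), tau H G = t} =
      Set.range (fun G : SimpleGraph (Fin n) => tau H G) := rfl
  rw [this]
  exact (Set.finite_range _).bddAbove

lemma tau_le_M {W : Type} (H : SimpleGraph W) {n : ℕ} (G : SimpleGraph (Fin n)) :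
    tau H G ≤ M H n := le_csSup (bddAbove_tau H n) ⟨G, rfl⟩

lemma M_le {W : Type} (H : SimpleGraph W) {n : ℕ} (B : ℕ)
    (h : ∀ G : SimpleGraph (Fin n), tau H G ≤ B) : M H n ≤ B := by
  apply csSup_le'
  rintro t ⟨G, rfl⟩
  exact h G

end Pool.Agent.R7.Boot
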