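import Pool.Agent.R7.Boot.Wheel

set_option autoImplicit false

namespace Pool.Agent.R7.Boot

open SimpleGraph

/-- clique on the first `s` vertices together with the square of a path -/
def B (n s : ℕ) : SimpleGraph (Fin n) where
  Adj a b := a.val ≠ b.val ∧ ((a.val < s ∧ b.val < s) ∨ (a.val ≤ b.val + 2 ∧ b.val ≤ a.val + 2))
  symm := ⟨by
    rintro a b ⟨h1, h2⟩
    refine ⟨h1.symm, ?_⟩
    rcases h2 with h2 | h2
    · exact Or.inl ⟨h2.2, h2.1⟩
    · exact Or.inr ⟨h2.2, h2.1⟩⟩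
  loopless := ⟨fun a h => h.1 rfl⟩

lemma B_mono {n s t : ℕ} (h : s ≤ t) : B n s ≤ B n t := by
  rintro a b ⟨h1, h2⟩
  refine ⟨h1, ?_⟩
  rcases h2 with h2 | h2
  · exact Or.inl ⟨by omega, by omega⟩
  · exact Or.inr h2

lemma adjv {n s : ℕ} {x y a b : Fin n} (h : (B n s ⊔ edge x y).Adj a b) :
    a.val ≠ b.val ∧ ((a.val < s ∧ b.val < s) ∨ (a.val ≤ b.val + 2 ∧ b.val ≤ a.val + 2) ∨
      (a.val = x.val ∧ b.val = y.val) ∨ (a.val = y.val ∧ b.val = x.val)) := by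
  rw [SimpleGraph.sup_adj, edge_adj] at h
  rcases h with ⟨h1, h2⟩ | ⟨h1, h2⟩
  · exact ⟨h1, by tauto⟩
  · refine ⟨fun h => h2 (Fin.ext h), ?_⟩
    rcases h1 with ⟨rfl, rfl⟩ | ⟨rfl, rfl⟩
    · exact Or.inr (Or.inr (Or.inl ⟨rfl, rfl⟩))
    · exact Or.inr (Or.inr (Or.inr ⟨rfl, rfl⟩))

lemma five_bound (r : Fin 6 → ℕ) (hr : Function.Injective r) (c t : ℕ)
    (h : ∀ i, r i ≠ c ∧ ((r i ≤ c + 2 ∧ c ≤ r i + 2) ∨ r i = t)) : False := by
  have h1 : (Finset.univ.image r) ⊆ ({c - 2, c - 1, c + 1, c + 2, t} : Finset ℕ) := by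
    intro z hz
    rw [Finset.mem_image] at hz
    obtain ⟨i, -, rfl⟩ := hz
    have := h i
    simp only [Finset.mem_insert, Finset.mem_singleton]
    omega
  have h2 := Finset.card_le_card h1
  rw [Finset.card_image_of_injective _ hr] at h2
  have h3 : ({c - 2, c - 1, c + 1, c + 2, t} : Finset ℕ).card ≤ 5 := Finset.card_le_five
  simp at h2
  omega

/-- numeric adjacency -/
def NA (s x y a b : ℕ) : Prop :=
  a ≠ b ∧ ((a < s ∧ b < s) ∨ (a ≤ b + 2 ∧ b ≤ a + 2) ∨ (a = x ∧ b = y) ∨ (a = y ∧ b = x))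

lemma N0 {s x y c p : ℕ} (hc : s ≤ c) (hcx : c = x) (h : NA s x y c p) :
    p ≠ c ∧ ((p ≤ c + 2 ∧ c ≤ p + 2) ∨ p = y) := by unfold NA at h; omega
lemma N0' {s x y c p : ℕ} (hc : s ≤ c) (hcx : c ≠ x) (h : NA s x y c p) :
    p ≠ c ∧ ((p ≤ c + 2 ∧ c ≤ p + 2) ∨ p = x) := by unfold NA at h; omega
lemma N1 {s x y c : ℕ} (hc : c < s) (h2 : s + 2 ≤ y) (h : NA s x y c y) : c = x := by
  unfold NA at h; omega
lemma N2 {s x y c p : ℕ} (hc : c < s) (h2 : s + 2 ≤ y) (hcx : c = x) (hpc : c ≠ p)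
    (h : NA s x y y p) : p ≤ y + 2 ∧ y ≤ p + 2 := by unfold NA at h; omega
lemma N3 {s x y c p : ℕ} (hc : c < s) (h2 : s + 2 ≤ y) (hp : s ≤ p) (hpy : p ≠ y)
    (h : NA s x y c p) : p ≤ c + 2 := by unfold NA at h; omega
lemma N4 {s x y c p q q' : ℕ} (hc : c + 1 = s) (hcx : c = x) (hp : p = s + 1) (hy : y = s + 2)
    (h : NA s x y p q) (hqy : q ≠ y) (h2 : NA s x y c q) (hq' : q' = s) (hqq : q ≠ q') : False := by
  unfold NA at h h2; omega
lemma NA.symm {s x y a b : ℕ} (h : NA s x y a b) : NA s x y b a := by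
  unfold NA at h ⊢; omega

lemma fin6_facts : ∀ j : Fin 6, j + 5 + 1 = j ∧ j + 1 + 1 = j + 2 ∧ j + 4 + 1 = j + 5 ∧
    j + 1 ≠ j ∧ j + 5 ≠ j ∧ j + 1 ≠ j + 5 ∧ j + 2 ≠ j ∧ j + 2 ≠ j + 5 ∧ j + 2 ≠ j + 1 ∧
    j + 4 ≠ j ∧ j + 4 ≠ j + 1 ∧ j + 4 ≠ j + 5 := by decide

lemma key_linear {n s : ℕ} {x y c : Fin n} {r : Fin 6 → Fin n} (h1 : x.val + 3 ≤ y.val)
    (h2 : s + 2 ≤ y.val) (hW : Wh (B n s ⊔ edge x y) c r) (hU : Uses c r x y) : False := by
  have hinj : Function.Injective (fun i => (r i).val) := fun a b h => hW.inj (Fin.ext h)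
  have hne : ∀ i j : Fin 6, i ≠ j → (r i).val ≠ (r j).val := fun i j hij h => hij (hinj h)
  have hub : ∀ i, NA s x.val y.val c.val (r i).val := fun i => adjv (hW.hub i)
  have rim : ∀ i, NA s x.val y.val (r i).val (r (i + 1)).val := fun i => adjv (hW.rim i)
  -- the hub is in the clique
  have hc : c.val < s := by
    by_contra hcs
    push Not at hcs
    by_cases hcx : c.val = x.val
    · exact five_bound (fun i => (r i).val) hinj c.val y.val (fun i => N0 hcs hcx (hub i))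
    · exact five_bound (fun i => (r i).val) hinj c.val x.val (fun i => N0' hcs hcx (hub i))
  have hy : ∃ j, (r j).val = y.val := by
    obtain ⟨i, ⟨-, h⟩ | ⟨h, -⟩ | ⟨-, h⟩ | ⟨h, -⟩⟩ := hU
    · exact ⟨i, by rw [h]⟩
    · exfalso
      rw [h] at hc
      omega
    · exact ⟨i + 1, by rw [h]⟩
    · exact ⟨i, by rw [h]⟩
  obtain ⟨j, hj⟩ := hy
  obtain ⟨e1, e2, e3, n1, n2, n3, n4, n5, n6, n7, n8, n9⟩ := fin6_facts j
  have a0 := hub j
  rw [hj] at a0
  have hcx : c.val = x.val := N1 hc h2 a0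
  have a1 := rim j
  rw [hj] at a1
  have a2 := (rim (j + 5)).symm
  rw [e1, hj] at a2
  have p1 := N2 hc h2 hcx (hub (j + 1)).1 a1
  have p2 := N2 hc h2 hcx (hub (j + 5)).1 a2
  have m1 := hne _ _ n1
  have m2 := hne _ _ n2
  rw [hj] at m1 m2
  have q1 := N3 hc h2 (by omega) m1 (hub (j + 1))
  have q2 := N3 hc h2 (by omega) m2 (hub (j + 5))
  have m3 := hne _ _ n3
  have c3 : c.val + 1 = s := by omega
  have c4 : y.val = s + 2 := by omega
  have c1 : ((r (j + 1)).val = s ∧ (r (j + 5)).val = s + 1) ∨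
      ((r (j + 1)).val = s + 1 ∧ (r (j + 5)).val = s) := by omega
  rcases c1 with ⟨c1, c2⟩ | ⟨c1, c2⟩
  · have a4 := (rim (j + 4)).symm
    rw [e3] at a4
    have m7 := hne _ _ n7
    rw [hj] at m7
    exact N4 c3 hcx c2 c4 a4 m7 (hub (j + 4)) c1 (hne _ _ n8)
  · have a3 := rim (j + 1)
    rw [e2] at a3
    have m4 := hne _ _ n4
    rw [hj] at m4
    exact N4 c3 hcx c1 c4 a3 m4 (hub (j + 2)) c2 (hne _ _ n5)

lemma Uses.symm {V : Type} {c : V} {r : Fin 6 → V} {x y : V} (h : Uses c r x y) :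
    Uses c r y x := by
  obtain ⟨i, h | h | h | h⟩ := h
  · exact ⟨i, Or.inr (Or.inl h)⟩
  · exact ⟨i, Or.inl h⟩
  · exact ⟨i, Or.inr (Or.inr (Or.inr h))⟩
  · exact ⟨i, Or.inr (Or.inr (Or.inl h))⟩

lemma step_B_le (n s : ℕ) : step wheel (B n s) ≤ B n (s + 2) := by
  intro x y hxy
  rw [step_wheel_adj] at hxy
  rcases hxy with hxy | ⟨hne, c, r, hW, hU⟩
  · exact B_mono (by omega) hxy
  · have hne' : x.val ≠ y.val := fun h => hne (Fin.ext h)
    by_contra hno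
    have hno' : ¬ ((x.val < s + 2 ∧ y.val < s + 2) ∨
        (x.val ≤ y.val + 2 ∧ y.val ≤ x.val + 2)) := fun h => hno ⟨hne', h⟩
    rcases lt_or_gt_of_ne hne' with hlt | hlt
    · exact key_linear (by omega) (by omega) hW hU
    · rw [edge_comm] at hW
      exact key_linear (by omega) (by omega) hW hU.symm

lemma B_le_step_aux {n s : ℕ} (hs : 7 ≤ s) (hn : s < n) {x y : Fin n} (hy : y.val = s)
    (hx : x.val + 3 ≤ s) : (step wheel (B n s)).Adj x y := by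
  rw [step_wheel_adj]
  right
  refine ⟨fun h => by rw [h] at hx; omega, ?_⟩
  obtain ⟨κ1, κ2, κ3, h1, h2, h3, h12, h13, h23, hx1, hx2, hx3⟩ : ∃ κ1 κ2 κ3 : ℕ,
      κ1 ≤ 3 ∧ κ2 ≤ 3 ∧ κ3 ≤ 3 ∧ κ1 ≠ κ2 ∧ κ1 ≠ κ3 ∧ κ2 ≠ κ3 ∧ x.val ≠ κ1 ∧ x.val ≠ κ2 ∧
      x.val ≠ κ3 := by
    by_cases a0 : x.val = 0
    · exact ⟨1, 2, 3, by omega⟩
    by_cases a1 : x.val = 1
    · exact ⟨0, 2, 3, by omega⟩
    by_cases a2 : x.val = 2
    · exact ⟨0, 1, 3, by omega⟩
    · exact ⟨0, 1, 2, by omega⟩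
  obtain ⟨c, hc⟩ : ∃ c : Fin n, c.val = s - 1 := ⟨⟨s - 1, by omega⟩, rfl⟩
  obtain ⟨d, hd⟩ : ∃ d : Fin n, d.val = s - 2 := ⟨⟨s - 2, by omega⟩, rfl⟩
  obtain ⟨k1, hk1⟩ : ∃ k : Fin n, k.val = κ1 := ⟨⟨κ1, by omega⟩, rfl⟩
  obtain ⟨k2, hk2⟩ : ∃ k : Fin n, k.val = κ2 := ⟨⟨κ2, by omega⟩, rfl⟩
  obtain ⟨k3, hk3⟩ : ∃ k : Fin n, k.val = κ3 := ⟨⟨κ3, by omega⟩, rfl⟩
  have adj : ∀ a b : Fin n, a.val ≠ b.val → ((a.val < s ∧ b.val < s) ∨
      (a.val ≤ b.val + 2 ∧ b.val ≤ a.val + 2)) → (B n s ⊔ edge x y).Adj a b :=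
    fun a b h1 h2 => Or.inl ⟨h1, h2⟩
  refine ⟨c, ![y, x, k1, k2, k3, d], ⟨?_, ?_, ?_⟩, ?_⟩
  · have hnd : ([y.val, x.val, k1.val, k2.val, k3.val, d.val]).Nodup := by
      simp only [List.nodup_cons, List.mem_cons, List.not_mem_nil, or_false, not_or,
        not_false_eq_true, List.nodup_nil, and_true]
      omega
    have hnd' : ([y, x, k1, k2, k3, d]).Nodup := List.Nodup.of_map Fin.val hnd
    have h6 : ![y, x, k1, k2, k3, d] = fun i => ([y, x, k1, k2, k3, d]).get i := by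
      funext i
      fin_cases i <;> rfl
    rw [h6]
    exact List.nodup_iff_injective_get.1 hnd'
  · intro i
    fin_cases i
    · exact adj c y (by omega) (by right; omega)
    · exact adj c x (by omega) (by left; omega)
    · exact adj c k1 (by omega) (by left; omega)
    · exact adj c k2 (by omega) (by left; omega)
    · exact adj c k3 (by omega) (by left; omega)
    · exact adj c d (by omega) (by left; omega)
  · intro i
    fin_cases i
    · refine Or.inr ?_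
      rw [edge_adj]
      refine ⟨Or.inr ⟨rfl, rfl⟩, fun h => ?_⟩
      have h' : y.val = x.val := congrArg Fin.val h
      omega
    · exact adj x k1 (by omega) (by left; omega)
    · exact adj k1 k2 (by omega) (by left; omega)
    · exact adj k2 k3 (by omega) (by left; omega)
    · exact adj k3 d (by omega) (by left; omega)
    · exact adj d y (by omega) (by right; omega)
  · exact ⟨0, Or.inr (Or.inr (Or.inr ⟨rfl, rfl⟩))⟩

lemma B_le_step {n s : ℕ} (hs : 7 ≤ s) (hn : s < n) : B n (s + 1) ≤ step wheel (B n s) := by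
  rintro x y ⟨h1, h2⟩
  by_cases h3 : (x.val < s ∧ y.val < s) ∨ (x.val ≤ y.val + 2 ∧ y.val ≤ x.val + 2)
  · exact le_step _ _ ⟨h1, h3⟩
  · by_cases h4 : y.val = s
    · exact B_le_step_aux hs hn h4 (by omega)
    · exact (B_le_step_aux hs hn (x := y) (y := x) (by omega) (by omega)).symm

lemma proc_B_le (n i : ℕ) : proc wheel (B n 7) i ≤ B n (7 + 2 * i) := by
  induction i with
  | zero => exact le_rfl
  | succ i ih =>
    refine le_trans (step_mono wheel ih) ?_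
    have := step_B_le n (7 + 2 * i)
    rwa [show 7 + 2 * (i + 1) = 7 + 2 * i + 2 by ring]

lemma le_proc_B (n i : ℕ) (hi : 7 + i ≤ n) : B n (7 + i) ≤ proc wheel (B n 7) i := by
  induction i with
  | zero => exact le_rfl
  | succ i ih =>
    refine le_trans ?_ (step_mono wheel (ih (by omega)))
    rw [show 7 + (i + 1) = 7 + i + 1 by ring]
    exact B_le_step (by omega) (by omega)

/-- The maximum running time of the wheel process is at least linear. -/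
theorem M_wheel_ge (n : ℕ) : (n - 7) / 2 ≤ M wheel n := by
  by_cases hn : n ≤ 7
  · simp [Nat.sub_eq_zero_of_le hn]
  push Not at hn
  refine le_trans ?_ (tau_le_M wheel (B n 7))
  apply le_tau
  intro i hi heq
  have h1 := proc_stable wheel (B n 7) heq (n - 7) (by omega)
  have h2 := le_proc_B n (n - 7) (by omega)
  rw [h1] at h2
  have h3 := le_trans h2 (proc_B_le n i)
  have h4 : (B n (7 + (n - 7))).Adj ⟨0, by omega⟩ ⟨n - 1, by omega⟩ := by
    refine ⟨?_, Or.inl ⟨?_, ?_⟩⟩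
    · show (0 : ℕ) ≠ n - 1
      omega
    · show 0 < _
      omega
    · show n - 1 < _
      omega
  have h5 := h3 h4
  obtain ⟨-, h6 | h6⟩ := h5
  · have : n - 1 < 7 + 2 * i := h6.2
    omega
  · have : n - 1 ≤ 0 + 2 := h6.2
    omega

end Pool.Agent.R7.Boot
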