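import Pool.Agent.R7.Boot.Upper
import Pool.Agent.R7.Boot.Linear

set_option autoImplicit false

namespace Pool.Agent.R7.Boot

open SimpleGraph

lemma complete_of_wh {n : ℕ} (hn : 8 ≤ n) {G : SimpleGraph (Fin n)} {x c : Fin n} (hxc : c ≠ x)
    (hx : ∀ v, v ≠ x → G.Adj x v) {r : Fin 6 → Fin n} (h : Wh G c r) :
    step wheelP (step wheelP (step wheelP G)) = ⊤ := by
  have hle := le_step wheelP G
  have hgen : ∀ (k : Fin 6) (i : Fin 5), k + 1 + i.castSucc ≠ k := by decide
  obtain ⟨k, hk⟩ : ∃ k : Fin 6, ∀ i : Fin 5, r (k + 1 + i.castSucc) ≠ x := by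
    by_cases hxr : ∃ k, r k = x
    · obtain ⟨k, rfl⟩ := hxr
      refine ⟨k, fun i hi => ?_⟩
      exact hgen k i (h.inj hi)
    · push Not at hxr
      exact ⟨0, fun i => hxr _⟩
  have e : ∀ i : Fin 6, k + 1 + (i + 1) = k + 1 + i + 1 := fun i => (add_assoc _ _ _).symm
  have hr : ∀ i : Fin 6, (step wheelP G).Adj (r (k + 1 + i)) (r (k + 1 + (i + 1))) := by
    intro i
    rw [e]
    exact hle (h.rim _)
  refine complete_of_two hn hxc (fun v hv => hle (hx v hv)) (hub_univ h)
    (fun i : Fin 5 => r (k + 1 + i.castSucc)) ?_ hk (fun i => (h.hub _).ne.symm) (hr 0) (hr 1)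
    (hr 2) (hr 3)
  intro i j hij
  exact Fin.castSucc_injective _ (add_left_cancel (h.inj hij))

lemma sup_edge_le_step {n : ℕ} {G : SimpleGraph (Fin n)} {a b : Fin n}
    (h : (step wheelP G).Adj a b) : G ⊔ edge a b ≤ step wheelP G :=
  sup_le (le_step _ _) (by rw [edge_le_iff]; exact Or.inr h)

lemma first_copy {n : ℕ} {G : SimpleGraph (Fin n)} (h : G ≠ step wheelP G) :
    ∃ c r, Wh (step wheelP G) c r := by
  have hex : ∃ a b, (step wheelP G).Adj a b ∧ ¬ G.Adj a b := by
    by_contra hno
    push Not at hno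
    exact h (le_antisymm (le_step _ _) hno)
  obtain ⟨a, b, h1, h2⟩ := hex
  have h3 := h1
  rw [step_wheelP_adj] at h1
  rcases h1 with h1 | ⟨-, c, r, p, hW, -⟩
  · exact absurd h1 h2
  · exact ⟨c, r, hW.mono (sup_edge_le_step h3)⟩

lemma reduce {n : ℕ} (hn : 8 ≤ n) {G : SimpleGraph (Fin n)} {x : Fin n}
    (hx : ∀ v, v ≠ x → G.Adj x v) (honly : ∀ c r, Wh (step wheelP G) c r → c = x) :
    del x (step wheelP G) = c6 (del x G) := by
  ext a b
  constructor
  · rintro ⟨h, hax, hbx⟩
    have h3 := sup_edge_le_step h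
    rw [step_wheelP_adj] at h
    rcases h with h | ⟨hab, c, r, p, hW, -, -, h4⟩
    · exact Or.inl ⟨h, hax, hbx⟩
    · have hcx := honly c r (hW.mono h3)
      subst hcx
      right
      have key : ∀ a b : Fin n, a ≠ b → Wh (G ⊔ edge a b) c r → a ≠ c → b ≠ c →
          ∀ i, r i = a → r (i + 1) = b → P5 (del c G) b a := by
        intro a b hab hW hac hbc i hi hi1
        have hrc : ∀ j, r j ≠ c := fun j => (hW.hub j).ne.symm
        have hedge : ∀ j, j ≠ i → (del c G).Adj (r j) (r (j + 1)) := by
          intro j hji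
          refine ⟨?_, hrc _, hrc _⟩
          rcases hW.rim j with h5 | h5
          · exact h5
          · exfalso
            rw [edge_adj] at h5
            rcases h5.1 with ⟨h6, h7⟩ | ⟨h6, h7⟩
            · exact hji (hW.inj (h6.trans hi.symm))
            · have g1 := hW.inj (h6.trans hi1.symm)
              have g2 := hW.inj (h7.trans hi.symm)
              rw [g1] at g2
              revert g2
              clear * -
              revert i
              decide
        have e2 : r (i + 1 + 1 + 1 + 1 + 1 + 1) = a := by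
          rw [← hi]
          congr 1
          clear * -
          revert i
          decide
        refine ⟨r (i + 1 + 1), r (i + 1 + 1 + 1), r (i + 1 + 1 + 1 + 1), r (i + 1 + 1 + 1 + 1 + 1),
          ?_, ?_, ?_, ?_, ?_, ?_⟩
        · rw [← hi1]; exact hedge _ (by clear * -; revert i; decide)
        · exact hedge _ (by clear * -; revert i; decide)
        · exact hedge _ (by clear * -; revert i; decide)
        · exact hedge _ (by clear * -; revert i; decide)
        · rw [← e2]; exact hedge _ (by clear * -; revert i; decide)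
        · rw [← e2, ← hi1]
          have : [r (i + 1), r (i + 1 + 1), r (i + 1 + 1 + 1), r (i + 1 + 1 + 1 + 1),
              r (i + 1 + 1 + 1 + 1 + 1), r (i + 1 + 1 + 1 + 1 + 1 + 1)] =
              [i + 1, i + 1 + 1, i + 1 + 1 + 1, i + 1 + 1 + 1 + 1, i + 1 + 1 + 1 + 1 + 1,
                i + 1 + 1 + 1 + 1 + 1 + 1].map r := rfl
          rw [this]
          apply List.Nodup.map hW.inj
          clear * -
          revert i
          decide
      rcases h4 with ⟨i, h5 | h5 | h5 | h5⟩ | h5 | h5
      · exact absurd h5.1.symm hax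
      · exact absurd h5.1.symm hbx
      · exact (key a b hab hW hax hbx i h5.1 h5.2).symm
      · exact key b a hab.symm (by rw [edge_comm]; exact hW) hbx hax i h5.1 h5.2
      · exact absurd h5.1.symm hax
      · exact absurd h5.1.symm hbx
  · rintro (h | h)
    · exact ⟨le_step _ _ h.1, h.2⟩
    · have h1 := rule hn hx h
      obtain ⟨p1, p2, p3, p4, g1, g2, g3, g4, g5, g6⟩ := h
      exact ⟨h1, g1.2.1, g5.2.2⟩

theorem tau_wheelP_le {n : ℕ} (hn : 8 ≤ n) (G : SimpleGraph (Fin n)) :
    tau wheelP G ≤ Nat.log 5 n + 66 := by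
  by_cases h01 : proc wheelP G 0 = proc wheelP G 1
  · exact le_trans (tau_le wheelP G h01) (Nat.zero_le _)
  obtain ⟨x, r0, hW0⟩ := first_copy h01
  have hx2 : ∀ v, v ≠ x → (proc wheelP G 2).Adj x v := hub_univ hW0
  have hx : ∀ t, ∀ v, v ≠ x → (proc wheelP G (2 + t)).Adj x v := fun t v hv =>
    proc_mono wheelP G (by omega) (hx2 v hv)
  obtain ⟨N, hN⟩ : ∃ N, N = Nat.log 5 n + 60 := ⟨_, rfl⟩
  by_cases hex : ∃ t ≤ N + 1, ∃ c r, c ≠ x ∧ Wh (proc wheelP G (2 + t)) c r
  · obtain ⟨t, ht, c, r, hcx, hW⟩ := hex
    have h5 : proc wheelP G (2 + t + 3) = ⊤ := complete_of_wh hn hcx (hx t) hW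
    have h6 : proc wheelP G (2 + t + 3) = proc wheelP G (2 + t + 3 + 1) := by
      apply le_antisymm (proc_mono_succ _ _ _)
      rw [h5]
      exact le_top
    have := tau_le wheelP G h6
    omega
  · push Not at hex
    have hred : ∀ t ≤ N + 1, del x (proc wheelP G (2 + t)) = seq (del x (proc wheelP G 2)) t := by
      intro t
      induction t with
      | zero => intro _; rfl
      | succ t ih =>
        intro ht
        have h1 := ih (by omega)
        have h2 := reduce hn (hx t) (fun c r hW => by
          by_contra hcx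
          exact hex (t + 1) ht c r hcx hW)
        have h3 : seq (del x (proc wheelP G 2)) (t + 1) =
          c6 (seq (del x (proc wheelP G 2)) t) := rfl
        rw [h3, ← h1]
        exact h2
    have h6 : proc wheelP G (2 + N) = proc wheelP G (2 + N + 1) := by
      apply le_antisymm (proc_mono_succ _ _ _)
      intro a b hab
      by_cases hax : a = x
      · subst hax; exact hx N b hab.ne.symm
      by_cases hbx : b = x
      · subst hbx; exact (hx N a hab.ne).symm
      have h1 : (del x (proc wheelP G (2 + (N + 1)))).Adj a b := ⟨hab, hax, hbx⟩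
      rw [hred (N + 1) le_rfl] at h1
      have h2 : (seq (del x (proc wheelP G 2)) N).Adj a b := by
        rcases h1 with h1 | h1
        · exact h1
        · exact stab _ (by rw [Fintype.card_fin]; omega) h1
      rw [← hred N (by omega)] at h2
      exact h2.1
    have := tau_le wheelP G h6
    omega

/-- The maximum running time for the wheel with a pendant edge at the hub is at most
logarithmic. -/
theorem M_wheelP_le {n : ℕ} (hn : 8 ≤ n) : M wheelP n ≤ Nat.log 5 n + 66 :=
  M_le wheelP _ (fun G => tau_wheelP_le hn G)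

end Pool.Agent.R7.Boot
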