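import Pool.Agent.R7.Boot.Linear

set_option autoImplicit false

namespace Pool.Agent.R7.Boot

open SimpleGraph

/-- vertex `0` is universal, other adjacent vertices differ by an odd number at most `m` -/
def U (n m : ℕ) : SimpleGraph (Fin n) where
  Adj a b := a.val ≠ b.val ∧ (a.val = 0 ∨ b.val = 0 ∨
    ((a.val + b.val) % 2 = 1 ∧ a.val ≤ b.val + m ∧ b.val ≤ a.val + m))
  symm := ⟨by
    rintro a b ⟨h1, h2⟩
    refine ⟨h1.symm, ?_⟩
    rcases h2 with h2 | h2 | h2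
    · exact Or.inr (Or.inl h2)
    · exact Or.inl h2
    · exact Or.inr (Or.inr ⟨by omega, h2.2.2, h2.2.1⟩)⟩
  loopless := ⟨fun a h => h.1 rfl⟩

/-- numeric adjacency -/
def PA (m x y a b : ℕ) : Prop :=
  a ≠ b ∧ (a = 0 ∨ b = 0 ∨ ((a + b) % 2 = 1 ∧ a ≤ b + m ∧ b ≤ a + m) ∨
    (a = x ∧ b = y) ∨ (a = y ∧ b = x))

lemma pav {n m : ℕ} {x y a b : Fin n} (h : (U n m ⊔ edge x y).Adj a b) :
    PA m x.val y.val a.val b.val := by
  rw [SimpleGraph.sup_adj, edge_adj] at h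
  rcases h with ⟨h1, h2⟩ | ⟨h1, h2⟩
  · exact ⟨h1, by tauto⟩
  · refine ⟨fun h => h2 (Fin.ext h), ?_⟩
    rcases h1 with ⟨rfl, rfl⟩ | ⟨rfl, rfl⟩
    · exact Or.inr (Or.inr (Or.inr (Or.inl ⟨rfl, rfl⟩)))
    · exact Or.inr (Or.inr (Or.inr (Or.inr ⟨rfl, rfl⟩)))

lemma tri {m x y a b c : ℕ} (ha : a ≠ 0) (hb : b ≠ 0) (hc : c ≠ 0) (h1 : PA m x y a b)
    (h2 : PA m x y b c) (h3 : PA m x y a c) :
    (x = a ∨ x = b ∨ x = c) ∧ (y = a ∨ y = b ∨ y = c) := by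
  unfold PA at h1 h2 h3; omega

lemma PE {m x y a b : ℕ} (ha : a ≠ 0) (hb : b ≠ 0) (h1 : ¬ (a = x ∧ b = y))
    (h2 : ¬ (a = y ∧ b = x)) (h : PA m x y a b) :
    (a + b) % 2 = 1 ∧ a ≤ b + m ∧ b ≤ a + m := by
  unfold PA at h; omega

lemma NE {x y a b u v : ℕ} (hv : (x = u ∧ y = v) ∨ (y = u ∧ x = v)) (h1 : a ≠ u ∨ b ≠ v)
    (h2 : a ≠ v ∨ b ≠ u) : ¬ (a = x ∧ b = y) ∧ ¬ (a = y ∧ b = x) := by omega

lemma sum5 {x y v0 v1 v2 v3 v4 v5 m : ℕ} (hv : (x = v0 ∧ y = v1) ∨ (y = v0 ∧ x = v1))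
    (s1 : (v1 + v2) % 2 = 1 ∧ v1 ≤ v2 + m ∧ v2 ≤ v1 + m)
    (s2 : (v2 + v3) % 2 = 1 ∧ v2 ≤ v3 + m ∧ v3 ≤ v2 + m)
    (s3 : (v3 + v4) % 2 = 1 ∧ v3 ≤ v4 + m ∧ v4 ≤ v3 + m)
    (s4 : (v4 + v5) % 2 = 1 ∧ v4 ≤ v5 + m ∧ v5 ≤ v4 + m)
    (s5 : (v5 + v0) % 2 = 1 ∧ v5 ≤ v0 + m ∧ v0 ≤ v5 + m) :
    (x + y) % 2 = 1 ∧ x ≤ y + 5 * m ∧ y ≤ x + 5 * m := by omega

lemma fin6_facts2 : ∀ j : Fin 6, j + 1 + 1 = j + 2 ∧ j + 2 + 1 = j + 3 ∧ j + 3 + 1 = j + 4 ∧
    j + 4 + 1 = j + 5 ∧ j + 5 + 1 = j ∧ j ≠ j + 1 ∧ j ≠ j + 2 ∧ j ≠ j + 3 ∧ j ≠ j + 4 ∧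
    j ≠ j + 5 ∧ j + 1 ≠ j + 2 ∧ j + 1 ≠ j + 3 ∧ j + 1 ≠ j + 4 ∧ j + 1 ≠ j + 5 ∧
    j + 2 ≠ j + 3 ∧ j + 2 ≠ j + 4 ∧ j + 2 ≠ j + 5 ∧ j + 3 ≠ j + 4 ∧ j + 3 ≠ j + 5 ∧
    j + 4 ≠ j + 5 := by decide

/-- if `0` is universal and the rest is bipartite then the hub of a wheel is `0` -/
lemma hub_zero {n m : ℕ} {x y c : Fin n} {r : Fin 6 → Fin n} (hxy : x ≠ y)
    (hW : Wh (U n m ⊔ edge x y) c r) : c.val = 0 := by
  by_contra hc
  have hinj : Function.Injective (fun i => (r i).val) := fun a b h => hW.inj (Fin.ext h)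
  have hne : ∀ i j : Fin 6, i ≠ j → (r i).val ≠ (r j).val := fun i j hij h => hij (hinj h)
  have hub : ∀ i, PA m x.val y.val c.val (r i).val := fun i => pav (hW.hub i)
  have rim : ∀ i, PA m x.val y.val (r i).val (r (i + 1)).val := fun i => pav (hW.rim i)
  have hj : ∃ j, (r (j + 1)).val ≠ 0 ∧ (r (j + 2)).val ≠ 0 ∧ (r (j + 3)).val ≠ 0 ∧
      (r (j + 4)).val ≠ 0 := by
    by_cases h0 : ∃ i, (r i).val = 0
    · obtain ⟨i, hi⟩ := h0
      obtain ⟨-, -, -, -, -, n1, n2, n3, n4, -⟩ := fin6_facts2 i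
      have g1 := hne _ _ n1
      have g2 := hne _ _ n2
      have g3 := hne _ _ n3
      have g4 := hne _ _ n4
      rw [hi] at g1 g2 g3 g4
      exact ⟨i, g1.symm, g2.symm, g3.symm, g4.symm⟩
    · push Not at h0
      exact ⟨0, h0 _, h0 _, h0 _, h0 _⟩
  obtain ⟨j, g1, g2, g3, g4⟩ := hj
  obtain ⟨e1, e2, e3, e4, e5, -, -, -, -, -, n12, n13, n14, n15, n23, n24, n25, n34, n35, n45⟩ :=
    fin6_facts2 j
  have r1 := rim (j + 1)
  have r3 := rim (j + 3)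
  rw [e1] at r1
  rw [e3] at r3
  obtain ⟨t1, t2⟩ := tri hc g1 g2 (hub (j + 1)) r1 (hub (j + 2))
  obtain ⟨t3, t4⟩ := tri hc g3 g4 (hub (j + 3)) r3 (hub (j + 4))
  have m13 := hne _ _ n13
  have m14 := hne _ _ n14
  have m23 := hne _ _ n23
  have m24 := hne _ _ n24
  have hxc : x.val = c.val := by omega
  have hyc : y.val = c.val := by omega
  exact hxy (Fin.ext (by omega))

lemma rim_case {n m : ℕ} {x y c : Fin n} {r : Fin 6 → Fin n} (hc : c.val = 0)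
    (hW : Wh (U n m ⊔ edge x y) c r) (i : Fin 6)
    (h : (r i = x ∧ r (i + 1) = y) ∨ (r i = y ∧ r (i + 1) = x)) :
    (x.val + y.val) % 2 = 1 ∧ x.val ≤ y.val + 5 * m ∧ y.val ≤ x.val + 5 * m := by
  have hinj : Function.Injective (fun i => (r i).val) := fun a b h => hW.inj (Fin.ext h)
  have hne : ∀ i j : Fin 6, i ≠ j → (r i).val ≠ (r j).val := fun i j hij h => hij (hinj h)
  have nz : ∀ i, (r i).val ≠ 0 := fun i h => (pav (hW.hub i)).1 (by rw [h, hc])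
  have rim : ∀ i, PA m x.val y.val (r i).val (r (i + 1)).val := fun i => pav (hW.rim i)
  obtain ⟨e1, e2, e3, e4, e5, n01, n02, n03, n04, n05, n12, n13, n14, n15, n23, n24, n25, n34, n35,
    n45⟩ := fin6_facts2 i
  have r1 := rim (i + 1)
  have r2 := rim (i + 2)
  have r3 := rim (i + 3)
  have r4 := rim (i + 4)
  have r5 := rim (i + 5)
  rw [e1] at r1
  rw [e2] at r2
  rw [e3] at r3
  rw [e4] at r4
  rw [e5] at r5
  have hv : (x.val = (r i).val ∧ y.val = (r (i + 1)).val) ∨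
      (y.val = (r i).val ∧ x.val = (r (i + 1)).val) := by
    rcases h with ⟨h1, h2⟩ | ⟨h1, h2⟩
    · left; rw [h1, h2]; exact ⟨rfl, rfl⟩
    · right; rw [h1, h2]; exact ⟨rfl, rfl⟩
  have m01 := hne _ _ n01
  have m02 := hne _ _ n02
  have m03 := hne _ _ n03
  have m04 := hne _ _ n04
  have m05 := hne _ _ n05
  have m15 := hne _ _ n15
  have q1 := NE hv (Or.inl m01.symm) (Or.inr m02.symm)
  have q2 := NE hv (Or.inl m02.symm) (Or.inr m03.symm)
  have q3 := NE hv (Or.inl m03.symm) (Or.inr m04.symm)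
  have q4 := NE hv (Or.inl m04.symm) (Or.inr m05.symm)
  have q5 := NE (b := (r i).val) hv (Or.inl m05.symm) (Or.inl m15.symm)
  exact sum5 hv (PE (nz _) (nz _) q1.1 q1.2 r1) (PE (nz _) (nz _) q2.1 q2.2 r2)
    (PE (nz _) (nz _) q3.1 q3.2 r3) (PE (nz _) (nz _) q4.1 q4.2 r4)
    (PE (nz _) (nz _) q5.1 q5.2 r5)

lemma step_U_le (n m : ℕ) : step wheelP (U n m) ≤ U n (5 * m) := by
  intro x y hxy
  rw [step_wheelP_adj] at hxy
  rcases hxy with ⟨h1, h2⟩ | ⟨hne, c, r, p, hW, hp, hrp, hU⟩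
  · exact ⟨h1, by omega⟩
  · have hne' : x.val ≠ y.val := fun h => hne (Fin.ext h)
    have hc := hub_zero hne hW
    by_cases hx : x.val = 0
    · exact ⟨hne', Or.inl hx⟩
    by_cases hy : y.val = 0
    · exact ⟨hne', Or.inr (Or.inl hy)⟩
    refine ⟨hne', Or.inr (Or.inr ?_)⟩
    rcases hU with ⟨i, h | h | h | h⟩ | ⟨h, -⟩ | ⟨h, -⟩
    · exact absurd hc (by rw [h.1]; exact hx)
    · exact absurd hc (by rw [h.1]; exact hy)
    · exact rim_case hc hW i (Or.inl h)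
    · exact rim_case hc hW i (Or.inr h)
    · exact absurd hc (by rw [h]; exact hx)
    · exact absurd hc (by rw [h]; exact hy)

lemma proc_U_le (n i : ℕ) : proc wheelP (U n 1) i ≤ U n (5 ^ i) := by
  induction i with
  | zero => exact le_rfl
  | succ i ih =>
    refine le_trans (step_mono wheelP ih) ?_
    rw [pow_succ, mul_comm]
    exact step_U_le n (5 ^ i)

/-- rule of the process in the presence of a universal vertex -/
lemma path_rule {n : ℕ} (hn : 8 ≤ n) (Γ : SimpleGraph (Fin n)) (c : Fin n)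
    (hc : ∀ v, v ≠ c → Γ.Adj c v) (r : Fin 6 → Fin n) (hr : Function.Injective r)
    (hrc : ∀ i, r i ≠ c) (h0 : Γ.Adj (r 0) (r 1)) (h1 : Γ.Adj (r 1) (r 2))
    (h2 : Γ.Adj (r 2) (r 3)) (h3 : Γ.Adj (r 3) (r 4)) (h4 : Γ.Adj (r 4) (r 5)) :
    (step wheelP Γ).Adj (r 0) (r 5) := by
  rw [step_wheelP_adj]
  right
  refine ⟨fun h => absurd (hr h) (by decide), c, r, ?_⟩
  have hcard : (insert c (Finset.univ.image r)).card < (Finset.univ : Finset (Fin n)).card := by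
    refine lt_of_le_of_lt (Finset.card_insert_le _ _) ?_
    rw [Finset.card_image_of_injective _ hr]
    simp
    omega
  obtain ⟨p, -, hp⟩ := Finset.exists_mem_notMem_of_card_lt_card hcard
  rw [Finset.mem_insert, Finset.mem_image] at hp
  push Not at hp
  refine ⟨p, ⟨hr, fun i => Or.inl (hc _ (hrc i)), ?_⟩, Or.inl (hc p hp.1),
    fun i => hp.2 i (Finset.mem_univ _), Or.inl ⟨5, Or.inr (Or.inr (Or.inr ⟨rfl, rfl⟩))⟩⟩
  intro i
  fin_cases i
  · exact Or.inl h0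
  · exact Or.inl h1
  · exact Or.inl h2
  · exact Or.inl h3
  · exact Or.inl h4
  · refine Or.inr ?_
    rw [edge_adj]
    exact ⟨Or.inr ⟨rfl, rfl⟩, fun h => absurd (hr h) (by decide)⟩

lemma le_proc_U (n i : ℕ) (hn : 8 ≤ n) (a b : Fin n) (ha : 1 ≤ a.val)
    (hb : b.val = a.val + 5 ^ i) : (proc wheelP (U n 1) i).Adj a b := by
  induction i generalizing a b with
  | zero => exact ⟨by omega, by simp at hb; omega⟩
  | succ i ih =>
    have hpos : 0 < 5 ^ i := by positivity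
    have h5 : 5 ^ (i + 1) = 5 * 5 ^ i := by ring
    have hbn := b.isLt
    let r : Fin 6 → Fin n := fun k => ⟨a.val + k.val * 5 ^ i, by
      have hk : k.val * 5 ^ i ≤ 5 * 5 ^ i := Nat.mul_le_mul_right _ (by omega)
      omega⟩
    have hr : Function.Injective r := by
      intro k l hkl
      have h := congrArg Fin.val hkl
      simp only [r] at h
      have h' : k.val * 5 ^ i = l.val * 5 ^ i := by omega
      exact Fin.ext (Nat.eq_of_mul_eq_mul_right hpos h')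
    have hz : ∀ v : Fin n, v ≠ ⟨0, by omega⟩ → (proc wheelP (U n 1) i).Adj ⟨0, by omega⟩ v := by
      intro v hv
      apply proc_mono wheelP (U n 1) (Nat.zero_le i)
      refine ⟨?_, Or.inl rfl⟩
      intro h
      exact hv (Fin.ext h.symm)
    have := path_rule hn (proc wheelP (U n 1) i) ⟨0, by omega⟩ hz r hr
      (fun k h => by
        have := congrArg Fin.val h
        simp only [r] at this
        omega)
      (ih _ _ (by simp only [r]; omega) (by simp [r]))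
      (ih _ _ (by simp only [r]; omega) (by simp [r]; ring))
      (ih _ _ (by simp only [r]; omega) (by simp [r]; ring))
      (ih _ _ (by simp only [r]; omega) (by simp [r]; ring))
      (ih _ _ (by simp only [r]; omega) (by simp [r]; ring))
    have ea : r 0 = a := Fin.ext (by simp [r])
    have eb : r 5 = b := Fin.ext (by simp [r]; omega)
    rw [ea, eb] at this
    exact this

/-- The maximum running time for the wheel with a pendant edge at the hub is at least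
logarithmic. -/
theorem M_wheelP_ge {n T : ℕ} (hn : 5 ^ T + 8 ≤ n) : T ≤ M wheelP n := by
  refine le_trans ?_ (tau_le_M wheelP (U n 1))
  apply le_tau
  intro i hi heq
  have hle : 5 ^ (i + 1) ≤ 5 ^ T := Nat.pow_le_pow_right (by norm_num) hi
  have hpos : 0 < 5 ^ i := by positivity
  have h5 : 5 ^ (i + 1) = 5 * 5 ^ i := by ring
  have h1 := le_proc_U n (i + 1) (by omega) ⟨1, by omega⟩ ⟨1 + 5 ^ (i + 1), by omega⟩
    le_rfl rfl
  rw [← heq] at h1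
  have h2 := proc_U_le _ _ h1
  obtain ⟨-, h3 | h3 | ⟨-, -, h3⟩⟩ := h2
  · exact absurd h3 one_ne_zero
  · have : 1 + 5 ^ (i + 1) = 0 := h3
    omega
  · have : 1 + 5 ^ (i + 1) ≤ 1 + 5 ^ i := h3
    omega

end Pool.Agent.R7.Boot
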