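import Pool.Agent.R7.Boot.Blob

set_option autoImplicit false

namespace Pool.Agent.R7.Boot

open SimpleGraph

section
variable {V : Type} (Γ : SimpleGraph V)

lemma freeze {t : ℕ} {y : V}
    (h : ∀ y' z', Γ.Reachable y y' → P5 (seq Γ t) y' z' → (seq Γ t).Adj y' z') :
    ∀ s, t ≤ s → ∀ y' z', Γ.Reachable y y' → (seq Γ s).Adj y' z' → (seq Γ t).Adj y' z' := by
  intro s hs
  induction s, hs using Nat.le_induction with
  | base => exact fun _ _ _ h => h
  | succ s hs ih =>
    intro y' z' hr hadj
    rcases hadj with hadj | hP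
    · exact ih y' z' hr hadj
    · apply h y' z' hr
      obtain ⟨a, b, c, d, h1, h2, h3, h4, h5, h6⟩ := hP
      have r1 := hr.trans (seq_reach Γ h1.reachable)
      have r2 := r1.trans (seq_reach Γ h2.reachable)
      have r3 := r2.trans (seq_reach Γ h3.reachable)
      have r4 := r3.trans (seq_reach Γ h4.reachable)
      exact ⟨a, b, c, d, ih _ _ hr h1, ih _ _ r1 h2, ih _ _ r2 h3, ih _ _ r3 h4, ih _ _ r4 h5, h6⟩

lemma unstable {s : ℕ} {y z : V} (hP : P5 (seq Γ s) y z) (hn : ¬ (seq Γ s).Adj y z) {t : ℕ}
    (ht : t ≤ s) : ∃ y' z', Γ.Reachable y y' ∧ P5 (seq Γ t) y' z' ∧ ¬ (seq Γ t).Adj y' z' := by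
  by_contra hno
  push Not at hno
  have hf := freeze Γ hno s ht
  apply hn
  apply seq_mono Γ ht
  apply hno y z (Reachable.refl _)
  obtain ⟨a, b, c, d, h1, h2, h3, h4, h5, h6⟩ := hP
  have r1 := seq_reach Γ h1.reachable
  have r2 := r1.trans (seq_reach Γ h2.reachable)
  have r3 := r2.trans (seq_reach Γ h3.reachable)
  have r4 := r3.trans (seq_reach Γ h4.reachable)
  exact ⟨a, b, c, d, hf _ _ (Reachable.refl _) h1, hf _ _ r1 h2, hf _ _ r2 h3, hf _ _ r3 h4,
    hf _ _ r4 h5, h6⟩

/-- a path with five edges and a further neighbour yields a large complete bipartite graph -/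
lemma exists_blob [DecidableEq V] {t : ℕ} (p : Fin 6 → V) (hinj : Function.Injective p)
    (h01 : (seq Γ t).Adj (p 0) (p 1)) (h12 : (seq Γ t).Adj (p 1) (p 2))
    (h23 : (seq Γ t).Adj (p 2) (p 3)) (h34 : (seq Γ t).Adj (p 3) (p 4))
    (h45 : (seq Γ t).Adj (p 4) (p 5)) {w : V} (hw : ∀ i, p i ≠ w) {k : Fin 6}
    (hk : (seq Γ t).Adj (p k) w) : ∃ A B, Blob Γ (t + 3) A B ∧ p k ∈ A := by
  have hcyc : ∀ i, (seq Γ (t + 1)).Adj (p i) (p (i + 1)) := by
    have hm := seq_succ_le Γ t
    have h50 : (seq Γ (t + 1)).Adj (p 5) (p 0) := by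
      apply seq_P5 Γ
      refine mkP5 h45.symm h34.symm h23.symm h12.symm h01.symm ?_ ?_ ?_ ?_ ?_ ?_ ?_ ?_ ?_ ?_ <;>
        exact fun h => absurd (hinj h) (by decide)
    intro i
    fin_cases i
    · exact hm h01
    · exact hm h12
    · exact hm h23
    · exact hm h34
    · exact hm h45
    · exact h50
  -- rotate
  obtain ⟨q, hq⟩ : ∃ q : Fin 6 → V, q = fun i => p (i + k) := ⟨_, rfl⟩
  have hqinj : Function.Injective q := by
    intro a b h
    rw [hq] at h
    exact add_right_cancel (hinj h)
  have hqc : ∀ i, (seq Γ (t + 1)).Adj (q i) (q (i + 1)) := by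
    intro i
    rw [hq]
    have := hcyc (i + k)
    have e : i + 1 + k = i + k + 1 := add_right_comm i 1 k
    simp only [e]
    exact this
  have hq0 : q 0 = p k := by rw [hq]; simp
  have hqw : ∀ i, q i ≠ w := fun i => by rw [hq]; exact hw _
  have hk1 : (seq Γ (t + 1)).Adj (q 0) w := by rw [hq0]; exact seq_succ_le Γ t hk
  have c01 : (seq Γ (t + 1)).Adj (q 0) (q 1) := hqc 0
  have c12 : (seq Γ (t + 1)).Adj (q 1) (q 2) := hqc 1
  have c23 : (seq Γ (t + 1)).Adj (q 2) (q 3) := hqc 2
  have c34 : (seq Γ (t + 1)).Adj (q 3) (q 4) := hqc 3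
  have c45 : (seq Γ (t + 1)).Adj (q 4) (q 5) := hqc 4
  have c50 : (seq Γ (t + 1)).Adj (q 5) (q 0) := hqc 5
  have w2 : (seq Γ (t + 2)).Adj w (q 2) := by
    apply seq_P5 Γ
    refine mkP5 hk1.symm c50.symm c45.symm c34.symm c23.symm ?_ ?_ ?_ ?_ ?_ ?_ ?_ ?_ ?_ ?_ <;>
      first
        | exact (hqw _).symm
        | exact fun h => absurd (hqinj h) (by decide)
  have w4 : (seq Γ (t + 2)).Adj w (q 4) := by
    apply seq_P5 Γ
    refine mkP5 hk1.symm c01 c12 c23 c34 ?_ ?_ ?_ ?_ ?_ ?_ ?_ ?_ ?_ ?_ <;>
      first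
        | exact (hqw _).symm
        | exact fun h => absurd (hqinj h) (by decide)
  have hm2 := seq_succ_le Γ (t + 1)
  have hm3 := seq_succ_le Γ (t + 2)
  have n14 : (seq Γ (t + 3)).Adj (q 4) (q 1) := by
    apply seq_P5 Γ
    refine (mkP5 (hm2 c12) w2.symm (hm2 hk1.symm) (hm2 c50.symm) (hm2 c45.symm)
      ?_ ?_ ?_ ?_ ?_ ?_ ?_ ?_ ?_ ?_).symm <;>
      first
        | exact hqw _
        | exact (hqw _).symm
        | exact fun h => absurd (hqinj h) (by decide)
  have n30 : (seq Γ (t + 3)).Adj (q 0) (q 3) := by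
    apply seq_P5 Γ
    refine (mkP5 (hm2 c34) w4.symm w2 (hm2 c12.symm) (hm2 c01.symm)
      ?_ ?_ ?_ ?_ ?_ ?_ ?_ ?_ ?_ ?_).symm <;>
      first
        | exact hqw _
        | exact (hqw _).symm
        | exact fun h => absurd (hqinj h) (by decide)
  have n52 : (seq Γ (t + 3)).Adj (q 2) (q 5) := by
    apply seq_P5 Γ
    refine (mkP5 (hm2 c50) (hm2 hk1) w4 (hm2 c34.symm) (hm2 c23.symm)
      ?_ ?_ ?_ ?_ ?_ ?_ ?_ ?_ ?_ ?_).symm <;>
      first
        | exact hqw _
        | exact (hqw _).symm
        | exact fun h => absurd (hqinj h) (by decide)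
  have hm13 : seq Γ (t + 1) ≤ seq Γ (t + 3) := seq_mono Γ (by omega)
  refine ⟨{q 0, q 2, q 4}, {q 1, q 3, q 5, w}, ⟨?_, ?_, ?_, ?_⟩, by rw [← hq0]; simp⟩
  · rw [Finset.card_insert_of_notMem, Finset.card_insert_of_notMem, Finset.card_singleton]
    · simp only [Finset.mem_singleton]
      exact fun h => absurd (hqinj h) (by decide)
    · simp only [Finset.mem_insert, Finset.mem_singleton, not_or]
      exact ⟨fun h => absurd (hqinj h) (by decide), fun h => absurd (hqinj h) (by decide)⟩
  · rw [Finset.card_insert_of_notMem, Finset.card_insert_of_notMem,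
      Finset.card_insert_of_notMem, Finset.card_singleton]
    · simp only [Finset.mem_singleton]
      exact hqw _
    · simp only [Finset.mem_insert, Finset.mem_singleton, not_or]
      exact ⟨fun h => absurd (hqinj h) (by decide), hqw _⟩
    · simp only [Finset.mem_insert, Finset.mem_singleton, not_or]
      exact ⟨fun h => absurd (hqinj h) (by decide), fun h => absurd (hqinj h) (by decide), hqw _⟩
  · rw [Finset.disjoint_left]
    intro a ha hb
    simp only [Finset.mem_insert, Finset.mem_singleton] at ha hb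
    rcases ha with rfl | rfl | rfl <;> rcases hb with hb | hb | hb | hb <;>
      first
        | exact absurd (hqinj hb) (by decide)
        | exact absurd hb (hqw _)
  · intro a ha b hb
    simp only [Finset.mem_insert, Finset.mem_singleton] at ha hb
    rcases ha with rfl | rfl | rfl <;> rcases hb with rfl | rfl | rfl | rfl
    · exact hm13 c01
    · exact n30
    · exact hm13 c50.symm
    · exact hm13 hk1
    · exact hm13 c12.symm
    · exact hm13 c23
    · exact n52
    · exact hm3 w2.symm
    · exact n14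
    · exact hm13 c34.symm
    · exact hm13 c45
    · exact hm3 w4.symm

end

section
variable {V : Type} [Fintype V] [DecidableEq V] (Γ : SimpleGraph V)

/-- the six-cycle process stabilises after logarithmically many rounds -/
theorem stab {s : ℕ} (hs : Nat.log 5 (Fintype.card V) + 60 ≤ s) {y z : V}
    (hP : P5 (seq Γ s) y z) : (seq Γ s).Adj y z := by
  by_contra hn
  obtain ⟨t0, ht0⟩ : ∃ t0, t0 = Nat.log 5 (Fintype.card V) + 2 := ⟨_, rfl⟩
  obtain ⟨y', z', hr, hP', -⟩ := unstable Γ hP hn (t := t0) (by omega)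
  obtain ⟨a, b, c, d, h1, h2, h3, h4, h5, h6⟩ := hP'
  obtain ⟨p, hp⟩ : ∃ p : Fin 6 → V, p = ![y', a, b, c, d, z'] := ⟨_, rfl⟩
  have hinj : Function.Injective p := by
    rw [hp]
    have hl : (List.ofFn ![y', a, b, c, d, z']) = [y', a, b, c, d, z'] := by simp [List.ofFn_succ]
    rw [← List.nodup_ofFn, hl]
    exact h6
  have p01 : (seq Γ t0).Adj (p 0) (p 1) := by rw [hp]; exact h1
  have p12 : (seq Γ t0).Adj (p 1) (p 2) := by rw [hp]; exact h2
  have p23 : (seq Γ t0).Adj (p 2) (p 3) := by rw [hp]; exact h3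
  have p34 : (seq Γ t0).Adj (p 3) (p 4) := by rw [hp]; exact h4
  have p45 : (seq Γ t0).Adj (p 4) (p 5) := by rw [hp]; exact h5
  have pr : ∀ i, Γ.Reachable y (p i) := by
    have r0 : Γ.Reachable y (p 0) := by rw [hp]; exact hr
    have r1 := r0.trans (seq_reach Γ p01.reachable)
    have r2 := r1.trans (seq_reach Γ p12.reachable)
    have r3 := r2.trans (seq_reach Γ p23.reachable)
    have r4 := r3.trans (seq_reach Γ p34.reachable)
    have r5 := r4.trans (seq_reach Γ p45.reachable)
    intro i
    fin_cases i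
    · exact r0
    · exact r1
    · exact r2
    · exact r3
    · exact r4
    · exact r5
  by_cases hK : ∃ w, Γ.Reachable y w ∧ ∀ i, p i ≠ w
  · -- a further vertex in the component
    obtain ⟨w, hw, hwp⟩ := hK
    have hrw : (seq Γ t0).Reachable (p 0) w := reach_seq Γ t0 ((pr 0).symm.trans hw)
    obtain ⟨W⟩ := hrw
    obtain ⟨dd, hd, hd1, hd2⟩ := W.exists_boundary_dart (Set.range p) ⟨0, rfl⟩
      (by rintro ⟨i, hi⟩; exact hwp i hi)
    obtain ⟨k, hk⟩ := hd1
    have hadj := dd.adj
    rw [← hk] at hadj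
    obtain ⟨A, B, hb, hkA⟩ := exists_blob Γ p hinj p01 p12 p23 p34 p45
      (fun i h => hd2 ⟨i, h⟩) hadj
    obtain ⟨t1, ht1⟩ : ∃ t1, t1 = t0 + 3 := ⟨_, rfl⟩
    rw [← ht1] at hb
    have hstart : st Γ A B true t1 (p k) := fun b hbB _ => hb.adj _ hkA b hbB
    have hwalk : ∀ v v', Γ.Reachable y v → Γ.Reachable y v' →
        ∃ q : (seq Γ t0).Walk v v', q.length ≤ 4 := by
      intro v v' hv hv'
      rw [ht0]
      exact near_four Γ (hv.symm.trans hv')
    have hsome : ∀ v, Γ.Reachable y v → ∃ e, st Γ A B e (t1 + 8) v := by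
      intro v hv
      obtain ⟨q, hq⟩ := hwalk _ _ (pr k) hv
      exact ⟨_, st.mono (walk_st hb q true t1 (by omega) le_rfl hstart) (by omega)⟩
    have hry : Γ.Reachable y z := seq_reach Γ hP.reach
    by_cases hboth : ∃ v, Γ.Reachable y v ∧ ∀ e, st Γ A B e (t1 + 10) v
    · -- non-bipartite case
      obtain ⟨v, hv, hve⟩ := hboth
      have hall : ∀ v', Γ.Reachable y v' → ∀ e, st Γ A B e (t1 + 18) v' := by
        intro v' hv' e
        obtain ⟨q, hq⟩ := hwalk _ _ hv hv'
        have h7 := walk_st hb q (xor e (decide (q.length % 2 = 1))) (t1 + 10) (by omega)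
          (by omega) (hve _)
        have h8 : (xor (xor e (decide (q.length % 2 = 1))) (decide (q.length % 2 = 1))) = e := by
          cases e <;> cases (decide (q.length % 2 = 1)) <;> rfl
        rw [h8] at h7
        exact st.mono h7 (by omega)
      have h9 := connect hb (t := t1 + 18) (by omega) (hall y (Reachable.refl _) true)
        (hall z hry false) hP.ne
      exact hn (seq_mono Γ (by omega) h9)
    · -- bipartite case
      push Not at hboth
      have huniq : ∀ v, Γ.Reachable y v → ∀ e, st Γ A B e (t1 + 10) v →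
          st Γ A B (!e) (t1 + 10) v → False := by
        intro v hv e g1 g2
        obtain ⟨e', he'⟩ := hboth v hv
        apply he'
        cases e <;> cases e'
        · exact g1
        · exact g2
        · exact g2
        · exact g1
      have hprop : ∀ t, t1 + 8 ≤ t → ∀ u v, Γ.Reachable y u → (seq Γ t).Adj u v →
          ∀ e, st Γ A B e (t1 + 8) u → st Γ A B (!e) (t1 + 8) v := by
        intro t ht
        induction t, ht using Nat.le_induction with
        | base =>
          intro u v hu huv e he
          have hv : Γ.Reachable y v := hu.trans (seq_reach Γ huv.reachable)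
          have g1 := st_step hb (by omega) he huv
          obtain ⟨e', he'⟩ := hsome v hv
          have g2 := st.mono (t := t1 + 10) he' (by omega)
          by_cases hee : e' = !e
          · rw [← hee]; exact he'
          · exfalso
            have hee' : e' = e := by
              cases e <;> cases e' <;> simp_all
            rw [hee'] at g2
            exact huniq v hv e g2 g1
        | succ t ht ih =>
          intro u v hu huv e he
          rcases huv with huv | hPuv
          · exact ih u v hu huv e he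
          · obtain ⟨a, b, c, d, g1, g2, g3, g4, g5, -⟩ := hPuv
            have r1 := hu.trans (seq_reach Γ g1.reachable)
            have r2 := r1.trans (seq_reach Γ g2.reachable)
            have r3 := r2.trans (seq_reach Γ g3.reachable)
            have r4 := r3.trans (seq_reach Γ g4.reachable)
            have k1 := ih u a hu g1 e he
            have k2 := ih a b r1 g2 _ k1
            have k3 := ih b c r2 g3 _ k2
            have k4 := ih c d r3 g4 _ k3
            have k5 := ih d v r4 g5 _ k4
            simpa using k5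
      obtain ⟨e, he⟩ := hsome y (Reachable.refl _)
      have hz : st Γ A B (!e) (t1 + 8) z :=
        hprop (s + 1) (by omega) y z (Reachable.refl _) (seq_P5 Γ hP) e he
      cases e
      · have h9 := connect hb (t := t1 + 8) (by omega) hz he hP.ne.symm
        exact hn (seq_mono Γ (by omega) h9).symm
      · have h9 := connect hb (t := t1 + 8) (by omega) he hz hP.ne
        exact hn (seq_mono Γ (by omega) h9)
  · -- the component has only six vertices
    push Not at hK
    classical
    obtain ⟨F, hF⟩ : ∃ F : ℕ → Finset (Fin 6 × Fin 6), F = fun t =>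
      Finset.univ.filter (fun ij => (seq Γ t).Adj (p ij.1) (p ij.2)) := ⟨_, rfl⟩
    have hstrict : ∀ t ≤ s, (F t).card < (F (t + 1)).card := by
      intro t ht
      apply Finset.card_lt_card
      rw [hF]
      obtain ⟨u, v, hu, hPuv, hnuv⟩ := unstable Γ hP hn ht
      obtain ⟨i, hi⟩ := hK u hu
      obtain ⟨j, hj⟩ := hK v (hu.trans (seq_reach Γ hPuv.reach))
      refine ⟨fun ij hij => ?_, fun hsub => ?_⟩
      · rw [Finset.mem_filter] at hij ⊢
        exact ⟨hij.1, seq_succ_le Γ t hij.2⟩
      · have hm : (i, j) ∈ Finset.univ.filter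
            (fun ij : Fin 6 × Fin 6 => (seq Γ (t + 1)).Adj (p ij.1) (p ij.2)) := by
          rw [Finset.mem_filter]
          refine ⟨Finset.mem_univ _, ?_⟩
          simp only [hi, hj]
          exact seq_P5 Γ hPuv
        have hm' := hsub hm
        rw [Finset.mem_filter] at hm'
        simp only [hi, hj] at hm'
        exact hnuv hm'.2
    have hcount : ∀ t ≤ s, t ≤ (F t).card := by
      intro t
      induction t with
      | zero => intro _; exact Nat.zero_le _
      | succ t ih =>
        intro ht
        have g1 := ih (by omega)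
        have g2 := hstrict t (by omega)
        omega
    have g1 := hcount s le_rfl
    have g2 : (F s).card ≤ 36 := by
      have := Finset.card_le_univ (F s)
      simpa using this
    omega

end

end Pool.Agent.R7.Boot
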