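import Pool.Agent.R7.Boot.Stab
import Pool.Agent.R7.Boot.PathLow

set_option autoImplicit false

namespace Pool.Agent.R7.Boot

open SimpleGraph

/-- remove all edges at `x` -/
def del {V : Type} (x : V) (G : SimpleGraph V) : SimpleGraph V where
  Adj a b := G.Adj a b ∧ a ≠ x ∧ b ≠ x
  symm := ⟨fun _ _ h => ⟨h.1.symm, h.2.2, h.2.1⟩⟩
  loopless := ⟨fun _ h => h.1.ne rfl⟩

lemma del_le {V : Type} (x : V) (G : SimpleGraph V) : del x G ≤ G := fun _ _ h => h.1

lemma hub_univ {n : ℕ} {Γ : SimpleGraph (Fin n)} {c : Fin n} {r : Fin 6 → Fin n}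
    (h : Wh Γ c r) : ∀ v, v ≠ c → (step wheelP Γ).Adj c v := by
  intro v hv
  by_cases hvr : ∃ i, r i = v
  · obtain ⟨i, rfl⟩ := hvr
    exact le_step _ _ (h.hub i)
  · push Not at hvr
    rw [step_wheelP_adj]
    right
    refine ⟨hv.symm, c, r, v, h.mono le_sup_left, Or.inr ?_, hvr, Or.inr (Or.inl ⟨rfl, rfl⟩)⟩
    rw [edge_adj]
    exact ⟨Or.inl ⟨rfl, rfl⟩, hv.symm⟩

/-- a path with five edges avoiding a universal vertex gets closed -/
lemma rule {n : ℕ} (hn : 8 ≤ n) {Γ : SimpleGraph (Fin n)} {x : Fin n}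
    (hx : ∀ v, v ≠ x → Γ.Adj x v) {a b : Fin n} (h : P5 (del x Γ) a b) :
    (step wheelP Γ).Adj a b := by
  obtain ⟨p1, p2, p3, p4, h1, h2, h3, h4, h5, h6⟩ := h
  have hinj : Function.Injective ![a, p1, p2, p3, p4, b] := by
    have hl : (List.ofFn ![a, p1, p2, p3, p4, b]) = [a, p1, p2, p3, p4, b] := by
      simp [List.ofFn_succ]
    rw [← List.nodup_ofFn, hl]
    exact h6
  refine path_rule hn Γ x hx ![a, p1, p2, p3, p4, b] hinj ?_ h1.1 h2.1 h3.1 h4.1 h5.1
  intro i
  fin_cases i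
  · exact h1.2.1
  · exact h2.2.1
  · exact h3.2.1
  · exact h4.2.1
  · exact h5.2.1
  · exact h5.2.2

lemma mkRule {n : ℕ} (hn : 8 ≤ n) {Γ : SimpleGraph (Fin n)} {x : Fin n}
    (hx : ∀ v, v ≠ x → Γ.Adj x v) {y a b c d z : Fin n} (xy : y ≠ x) (xa : a ≠ x) (xb : b ≠ x)
    (xc : c ≠ x) (xd : d ≠ x) (xz : z ≠ x) (h1 : Γ.Adj y a) (h2 : Γ.Adj a b)
    (h3 : Γ.Adj b c) (h4 : Γ.Adj c d) (h5 : Γ.Adj d z) (yb : y ≠ b) (yc : y ≠ c) (yd : y ≠ d)
    (yz : y ≠ z) (ac : a ≠ c) (ad : a ≠ d) (az : a ≠ z) (bd : b ≠ d) (bz : b ≠ z) (cz : c ≠ z) :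
    (step wheelP Γ).Adj y z :=
  rule hn hx (mkP5 ⟨h1, xy, xa⟩ ⟨h2, xa, xb⟩ ⟨h3, xb, xc⟩ ⟨h4, xc, xd⟩ ⟨h5, xd, xz⟩
    yb yc yd yz ac ad az bd bz cz)

/-- two universal vertices and a path with four edges: complete after two rounds -/
lemma complete_of_two {n : ℕ} (hn : 8 ≤ n) {Γ : SimpleGraph (Fin n)} {x c : Fin n} (hxc : c ≠ x)
    (hx : ∀ v, v ≠ x → Γ.Adj x v) (hc : ∀ v, v ≠ c → Γ.Adj c v) (p : Fin 5 → Fin n)
    (hp : Function.Injective p) (hpx : ∀ i, p i ≠ x) (hpc : ∀ i, p i ≠ c)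
    (h01 : Γ.Adj (p 0) (p 1)) (h12 : Γ.Adj (p 1) (p 2)) (h23 : Γ.Adj (p 2) (p 3))
    (h34 : Γ.Adj (p 3) (p 4)) :
    step wheelP (step wheelP Γ) = ⊤ := by
  have hle := le_step wheelP Γ
  have hle2 := le_step wheelP (step wheelP Γ)
  have hx1 : ∀ v, v ≠ x → (step wheelP Γ).Adj x v := fun v hv => hle (hx v hv)
  have hc1 : ∀ v, v ≠ c → (step wheelP Γ).Adj c v := fun v hv => hle (hc v hv)
  have z1 : ∀ z, z ≠ x → z ≠ c → (∀ i, p i ≠ z) → (step wheelP Γ).Adj z (p 1) ∧
      (step wheelP Γ).Adj z (p 0) ∧ (step wheelP Γ).Adj z (p 3) ∧ (step wheelP Γ).Adj z (p 4) := by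
    intro z hzx hzc hz
    refine ⟨?_, ?_, ?_, ?_⟩
    · refine mkRule hn hx hzx hxc (hpx 4) (hpx 3) (hpx 2) (hpx 1) (hc z hzc).symm (hc _ (hpc 4))
        h34.symm h23.symm h12.symm ?_ ?_ ?_ ?_ ?_ ?_ ?_ ?_ ?_ ?_ <;>
      first
        | exact (hz _).symm
        | exact (hpc _).symm
        | exact fun h => absurd (hp h) (by decide)
    · refine mkRule hn hx hzx hxc (hpx 3) (hpx 2) (hpx 1) (hpx 0) (hc z hzc).symm (hc _ (hpc 3))
        h23.symm h12.symm h01.symm ?_ ?_ ?_ ?_ ?_ ?_ ?_ ?_ ?_ ?_ <;>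
      first
        | exact (hz _).symm
        | exact (hpc _).symm
        | exact fun h => absurd (hp h) (by decide)
    · refine mkRule hn hx hzx hxc (hpx 0) (hpx 1) (hpx 2) (hpx 3) (hc z hzc).symm (hc _ (hpc 0))
        h01 h12 h23 ?_ ?_ ?_ ?_ ?_ ?_ ?_ ?_ ?_ ?_ <;>
      first
        | exact (hz _).symm
        | exact (hpc _).symm
        | exact fun h => absurd (hp h) (by decide)
    · refine mkRule hn hx hzx hxc (hpx 1) (hpx 2) (hpx 3) (hpx 4) (hc z hzc).symm (hc _ (hpc 1))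
        h12 h23 h34 ?_ ?_ ?_ ?_ ?_ ?_ ?_ ?_ ?_ ?_ <;>
      first
        | exact (hz _).symm
        | exact (hpc _).symm
        | exact fun h => absurd (hp h) (by decide)
  -- second round
  have z2 : ∀ z, z ≠ x → z ≠ c → (∀ i, p i ≠ z) → (step wheelP (step wheelP Γ)).Adj z (p 2) := by
    intro z hzx hzc hz
    obtain ⟨g1, g0, g3, g4⟩ := z1 z hzx hzc hz
    refine mkRule hn hx1 hzx (hpx 0) hxc (hpx 4) (hpx 3) (hpx 2) g0 (hc1 _ (hpc 0)).symm
      (hc1 _ (hpc 4)) (hle h34.symm) (hle h23.symm) ?_ ?_ ?_ ?_ ?_ ?_ ?_ ?_ ?_ ?_ <;>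
      first
        | exact (hz _).symm
        | exact (hpc _).symm
        | exact hzc
        | exact fun h => absurd (hp h) (by decide)
  have zz : ∀ z z', z ≠ x → z ≠ c → (∀ i, p i ≠ z) → z' ≠ x → z' ≠ c → (∀ i, p i ≠ z') →
      z ≠ z' → (step wheelP (step wheelP Γ)).Adj z z' := by
    intro z z' hzx hzc hz hzx' hzc' hz' hne
    obtain ⟨g1, g0, g3, g4⟩ := z1 z hzx hzc hz
    obtain ⟨k1, k0, k3, k4⟩ := z1 z' hzx' hzc' hz'
    refine mkRule hn hx1 hzx (hpx 0) (hpx 1) hxc (hpx 3) hzx' g0 (hle h01)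
      (hc1 _ (hpc 1)).symm (hc1 _ (hpc 3)) k3.symm ?_ ?_ ?_ ?_ ?_ ?_ ?_ ?_ ?_ ?_ <;>
      first
        | exact (hz _).symm
        | exact hz' _
        | exact (hpc _).symm
        | exact hpc _
        | exact hzc
        | exact hzc'.symm
        | exact hne
        | exact fun h => absurd (hp h) (by decide)
  -- a further vertex
  have hcard : (insert x (insert c (Finset.univ.image p))).card <
      (Finset.univ : Finset (Fin n)).card := by
    refine lt_of_le_of_lt (Finset.card_insert_le _ _) ?_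
    have := Finset.card_insert_le c (Finset.univ.image p)
    rw [Finset.card_image_of_injective _ hp] at this
    simp at this
    simp
    omega
  obtain ⟨z, -, hz⟩ := Finset.exists_mem_notMem_of_card_lt_card hcard
  rw [Finset.mem_insert, Finset.mem_insert, Finset.mem_image] at hz
  push Not at hz
  have hzx := hz.1
  have hzc := hz.2.1
  have hzp : ∀ i, p i ≠ z := fun i => hz.2.2 i (Finset.mem_univ _)
  obtain ⟨g1, g0, g3, g4⟩ := z1 z hzx hzc hzp
  have c0 := hc1 _ (hpc 0)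
  have c1 := hc1 _ (hpc 1)
  have c3 := hc1 _ (hpc 3)
  have c4 := hc1 _ (hpc 4)
  have q02 : (step wheelP (step wheelP Γ)).Adj (p 0) (p 2) := by
    refine mkRule hn hx1 (hpx 0) hzx (hpx 1) hxc (hpx 3) (hpx 2) g0.symm g1 c1.symm c3
      (hle h23.symm) ?_ ?_ ?_ ?_ ?_ ?_ ?_ ?_ ?_ ?_ <;>
      first
        | exact hzp _
        | exact (hzp _).symm
        | exact (hpc _).symm
        | exact hpc _
        | exact hzc
        | exact fun h => absurd (hp h) (by decide)
  have q03 : (step wheelP (step wheelP Γ)).Adj (p 0) (p 3) := by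
    refine mkRule hn hx1 (hpx 0) (hpx 1) hzx (hpx 4) hxc (hpx 3) (hle h01) g1.symm g4 c4.symm c3
      ?_ ?_ ?_ ?_ ?_ ?_ ?_ ?_ ?_ ?_ <;>
      first
        | exact hzp _
        | exact (hzp _).symm
        | exact (hpc _).symm
        | exact hpc _
        | exact hzc
        | exact fun h => absurd (hp h) (by decide)
  have q04 : (step wheelP (step wheelP Γ)).Adj (p 0) (p 4) := by
    refine mkRule hn hx1 (hpx 0) (hpx 1) hzx (hpx 3) hxc (hpx 4) (hle h01) g1.symm g3 c3.symm c4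
      ?_ ?_ ?_ ?_ ?_ ?_ ?_ ?_ ?_ ?_ <;>
      first
        | exact hzp _
        | exact (hzp _).symm
        | exact (hpc _).symm
        | exact hpc _
        | exact hzc
        | exact fun h => absurd (hp h) (by decide)
  have q13 : (step wheelP (step wheelP Γ)).Adj (p 1) (p 3) := by
    refine mkRule hn hx1 (hpx 1) (hpx 0) hzx (hpx 4) hxc (hpx 3) (hle h01.symm) g0.symm g4
      c4.symm c3 ?_ ?_ ?_ ?_ ?_ ?_ ?_ ?_ ?_ ?_ <;>
      first
        | exact hzp _
        | exact (hzp _).symm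
        | exact (hpc _).symm
        | exact hpc _
        | exact hzc
        | exact fun h => absurd (hp h) (by decide)
  have q14 : (step wheelP (step wheelP Γ)).Adj (p 1) (p 4) := by
    refine mkRule hn hx1 (hpx 1) (hpx 0) hzx (hpx 3) hxc (hpx 4) (hle h01.symm) g0.symm g3
      c3.symm c4 ?_ ?_ ?_ ?_ ?_ ?_ ?_ ?_ ?_ ?_ <;>
      first
        | exact hzp _
        | exact (hzp _).symm
        | exact (hpc _).symm
        | exact hpc _
        | exact hzc
        | exact fun h => absurd (hp h) (by decide)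
  have q24 : (step wheelP (step wheelP Γ)).Adj (p 2) (p 4) := by
    refine (mkRule hn hx1 (hpx 4) hzx (hpx 3) hxc (hpx 1) (hpx 2) g4.symm g3 c3.symm c1
      (hle h12) ?_ ?_ ?_ ?_ ?_ ?_ ?_ ?_ ?_ ?_).symm <;>
      first
        | exact hzp _
        | exact (hzp _).symm
        | exact (hpc _).symm
        | exact hpc _
        | exact hzc
        | exact fun h => absurd (hp h) (by decide)
  have q01 := hle2 (hle h01)
  have q12 := hle2 (hle h12)
  have q23 := hle2 (hle h23)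
  have q34 := hle2 (hle h34)
  have hpp : ∀ i j, i ≠ j → (step wheelP (step wheelP Γ)).Adj (p i) (p j) := by
    intro i j hij
    fin_cases i <;> fin_cases j <;>
      first
        | exact absurd rfl hij
        | exact q01
        | exact q02
        | exact q03
        | exact q04
        | exact q12
        | exact q13
        | exact q14
        | exact q23
        | exact q24
        | exact q34
        | exact q01.symm
        | exact q02.symm
        | exact q03.symm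
        | exact q04.symm
        | exact q12.symm
        | exact q13.symm
        | exact q14.symm
        | exact q23.symm
        | exact q24.symm
        | exact q34.symm
  have hzp' : ∀ z, z ≠ x → z ≠ c → (∀ i, p i ≠ z) → ∀ i,
      (step wheelP (step wheelP Γ)).Adj z (p i) := by
    intro z hzx hzc hz i
    obtain ⟨g1, g0, g3, g4⟩ := z1 z hzx hzc hz
    fin_cases i
    · exact hle2 g0
    · exact hle2 g1
    · exact z2 z hzx hzc hz
    · exact hle2 g3
    · exact hle2 g4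
  ext u v
  rw [top_adj]
  refine ⟨fun h => h.ne, fun huv => ?_⟩
  by_cases hux : u = x
  · subst hux; exact hle2 (hx1 v huv.symm)
  by_cases hvx : v = x
  · subst hvx; exact (hle2 (hx1 u huv)).symm
  by_cases huc : u = c
  · subst huc; exact hle2 (hc1 v huv.symm)
  by_cases hvc : v = c
  · subst hvc; exact (hle2 (hc1 u huv)).symm
  by_cases hup : ∃ i, p i = u
  · obtain ⟨i, rfl⟩ := hup
    by_cases hvp : ∃ j, p j = v
    · obtain ⟨j, rfl⟩ := hvp
      exact hpp i j (fun h => huv (by rw [h]))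
    · push Not at hvp
      exact (hzp' v hvx hvc hvp i).symm
  · push Not at hup
    by_cases hvp : ∃ j, p j = v
    · obtain ⟨j, rfl⟩ := hvp
      exact hzp' u hux huc hup j
    · push Not at hvp
      exact zz u v hux huc hup hvx hvc hvp huv

end Pool.Agent.R7.Boot
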