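import Pool.Agent.R7.Boot.Defs

set_option autoImplicit false

namespace Pool.Agent.R7.Boot

open SimpleGraph

/-- The wheel with six spokes: the hub is `none`, the rim is the `6`-cycle on the vertices
`some i`, `i : Fin 6` (arithmetic modulo `6`). -/
def wheel : SimpleGraph (Option (Fin 6)) where
  Adj a b :=
    match a, b with
    | none, none => False
    | none, some _ => True
    | some _, none => True
    | some i, some j => j = i + 1 ∨ i = j + 1
  symm := ⟨by
    rintro (_ | a) (_ | b) h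
    · exact h
    · exact h
    · exact h
    · exact h.symm⟩
  loopless := ⟨by
    rintro (_ | a) h
    · exact h
    · revert h a
      decide⟩

/-- explicit form of a copy of the wheel -/
structure Wh {V : Type} (Γ : SimpleGraph V) (c : V) (r : Fin 6 → V) : Prop where
  inj : Function.Injective r
  hub : ∀ i, Γ.Adj c (r i)
  rim : ∀ i, Γ.Adj (r i) (r (i + 1))

lemma Wh.mono {V : Type} {Γ Γ' : SimpleGraph V} {c : V} {r : Fin 6 → V} (h : Wh Γ c r)
    (hle : Γ ≤ Γ') : Wh Γ' c r :=
  ⟨h.inj, fun i => hle (h.hub i), fun i => hle (h.rim i)⟩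

/-- the copy uses the pair `x, y` -/
def Uses {V : Type} (c : V) (r : Fin 6 → V) (x y : V) : Prop :=
  ∃ i, (c = x ∧ r i = y) ∨ (c = y ∧ r i = x) ∨ (r i = x ∧ r (i + 1) = y) ∨
    (r i = y ∧ r (i + 1) = x)

lemma wheel_copy {V : Type} (Γ : SimpleGraph V) (f : Option (Fin 6) → V)
    (hinj : Function.Injective f) (hf : ∀ a b, wheel.Adj a b → Γ.Adj (f a) (f b)) :
    Wh Γ (f none) (fun i => f (some i)) := by
  refine ⟨fun a b h => Option.some_injective _ (hinj h), fun i => hf _ _ trivial, fun i => ?_⟩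
  exact hf _ _ (Or.inl rfl)

lemma wheel_uses {V : Type} (f : Option (Fin 6) → V) {x y : V}
    (h : ∃ a b, wheel.Adj a b ∧ f a = x ∧ f b = y) :
    Uses (f none) (fun i => f (some i)) x y := by
  obtain ⟨a, b, hab, rfl, rfl⟩ := h
  rcases a with _ | a <;> rcases b with _ | b
  · exact hab.elim
  · exact ⟨b, Or.inl ⟨rfl, rfl⟩⟩
  · exact ⟨a, Or.inr (Or.inl ⟨rfl, rfl⟩)⟩
  · rcases hab with rfl | rfl
    · exact ⟨a, Or.inr (Or.inr (Or.inl ⟨rfl, rfl⟩))⟩
    · exact ⟨b, Or.inr (Or.inr (Or.inr ⟨rfl, rfl⟩))⟩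

/-- the map of a copy given by hub and rim -/
def mk {V : Type} (c : V) (r : Fin 6 → V) : Option (Fin 6) → V
  | none => c
  | some i => r i

lemma mk_inj {V : Type} {Γ : SimpleGraph V} {c : V} {r : Fin 6 → V} (h : Wh Γ c r) :
    Function.Injective (mk c r) := by
  rintro (_ | a) (_ | b) hab
  · rfl
  · exact absurd hab (h.hub b).ne
  · exact absurd hab.symm (h.hub a).ne
  · exact congrArg some (h.inj hab)

lemma mk_adj {V : Type} {Γ : SimpleGraph V} {c : V} {r : Fin 6 → V} (h : Wh Γ c r) :
    ∀ a b, wheel.Adj a b → Γ.Adj (mk c r a) (mk c r b) := by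
  rintro (_ | a) (_ | b) hab
  · exact hab.elim
  · exact h.hub b
  · exact (h.hub a).symm
  · rcases hab with rfl | rfl
    · exact h.rim a
    · exact (h.rim b).symm

lemma mk_uses {V : Type} {c : V} {r : Fin 6 → V} {x y : V} (h : Uses c r x y) :
    ∃ a b, wheel.Adj a b ∧ mk c r a = x ∧ mk c r b = y := by
  obtain ⟨i, h | h | h | h⟩ := h
  · exact ⟨none, some i, trivial, h.1, h.2⟩
  · exact ⟨some i, none, trivial, h.2, h.1⟩
  · exact ⟨some i, some (i + 1), Or.inl rfl, h.1, h.2⟩
  · exact ⟨some (i + 1), some i, Or.inr rfl, h.2, h.1⟩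

lemma step_wheel_adj {V : Type} [Fintype V] (Γ : SimpleGraph V) (x y : V) :
    (step wheel Γ).Adj x y ↔ Γ.Adj x y ∨ (x ≠ y ∧ ∃ c r, Wh (Γ ⊔ edge x y) c r ∧ Uses c r x y) := by
  rw [step_adj]
  refine or_congr Iff.rfl (and_congr_right fun _ => ?_)
  constructor
  · rintro ⟨f, h1, h2, h3⟩
    exact ⟨_, _, wheel_copy _ f h1 h2, wheel_uses f h3⟩
  · rintro ⟨c, r, h1, h2⟩
    exact ⟨mk c r, mk_inj h1, mk_adj h1, mk_uses h2⟩

/-- The wheel with a pendant edge at the hub. -/
abbrev wheelP : SimpleGraph (Option (Option (Fin 6))) := addPendant wheel none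

lemma step_wheelP_adj {V : Type} [Fintype V] (Γ : SimpleGraph V) (x y : V) :
    (step wheelP Γ).Adj x y ↔ Γ.Adj x y ∨ (x ≠ y ∧ ∃ c r p, Wh (Γ ⊔ edge x y) c r ∧
      (Γ ⊔ edge x y).Adj c p ∧ (∀ i, r i ≠ p) ∧
      (Uses c r x y ∨ (c = x ∧ p = y) ∨ (c = y ∧ p = x))) := by
  rw [step_adj]
  refine or_congr Iff.rfl (and_congr_right fun _ => ?_)
  constructor
  · rintro ⟨f, h1, h2, a, b, hab, hx, hy⟩
    refine ⟨f (some none), fun i => f (some (some i)), f none, ?_, h2 _ _ rfl, ?_, ?_⟩
    · exact wheel_copy _ (fun a => f (some a)) (fun a b h => Option.some_injective _ (h1 h))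
        (fun a b h => h2 _ _ h)
    · intro i h
      exact absurd (h1 h) (by simp)
    · rcases a with _ | a <;> rcases b with _ | b
      · exact hab.elim
      · have hb : b = none := hab
        subst hb
        exact Or.inr (Or.inr ⟨hy, hx⟩)
      · have ha : a = none := hab
        subst ha
        exact Or.inr (Or.inl ⟨hx, hy⟩)
      · exact Or.inl (wheel_uses (fun a => f (some a)) ⟨a, b, hab, hx, hy⟩)
  · rintro ⟨c, r, p, h1, h2, h3, h4⟩
    refine ⟨fun a => match a with | none => p | some a => mk c r a, ?_, ?_, ?_⟩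
    · rintro (_ | a) (_ | b) hab
      · rfl
      · rcases b with _ | b
        · exact absurd hab.symm h2.ne
        · exact absurd hab.symm (h3 b)
      · rcases a with _ | a
        · exact absurd hab h2.ne
        · exact absurd hab (h3 a)
      · exact congrArg some (mk_inj h1 hab)
    · rintro (_ | a) (_ | b) hab
      · exact hab.elim
      · have hb : b = none := hab
        subst hb
        exact h2.symm
      · have ha : a = none := hab
        subst ha
        exact h2
      · exact mk_adj h1 a b hab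
    · rcases h4 with h4 | ⟨h4, h5⟩ | ⟨h4, h5⟩
      · obtain ⟨a, b, h6, h7, h8⟩ := mk_uses h4
        exact ⟨some a, some b, h6, h7, h8⟩
      · exact ⟨some none, none, rfl, h4, h5⟩
      · exact ⟨none, some none, rfl, h5, h4⟩

lemma wheel_connected : wheel.Connected := by
  have h : ∀ a, wheel.Reachable none a := by
    rintro (_ | a)
    · exact Reachable.refl _
    · exact SimpleGraph.Adj.reachable trivial
  exact { preconnected := fun a b => (h a).symm.trans (h b), nonempty := ⟨none⟩ }

end Pool.Agent.R7.Boot
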